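import Pool.Agent.Helper95.RIG.Leaf

/-! Exact entropy calculus: restriction of extensions and of leaves to events. -/

namespace Pool.Agent.Helper95.RIG

open Finset Filter Topology Pool.Agent.Helper69.RK Pool.Agent.Helper31.EC

noncomputable section

open Sp QS

variable {S : Sp} {ι κ : Type}

theorem push_res {T S : Sp} (p : Pj T S) (k : ℕ) (E : (S.F k).Ω → Prop) :
    push (p.π k) (res (T.F k).μ fun ω => E (p.π k ω)) = res (S.F k).μ E := by
  funext ω
  rw [push_ind]
  by_cases h : E ω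
  · rw [res_pos (S.F k).μ E ω h, ← p.law k, push_ind]
    apply Finset.sum_congr rfl
    intro ω' _
    by_cases h2 : p.π k ω' = ω
    · rw [res_pos (T.F k).μ (fun ω => E (p.π k ω)) ω' (by rw [h2]; exact h)]
    · rw [e1_ind_neg h2, zero_mul, zero_mul]
  · rw [res_neg (S.F k).μ E ω h]
    apply Finset.sum_eq_zero
    intro ω' _
    by_cases h2 : p.π k ω' = ω
    · rw [res_neg (T.F k).μ (fun ω => E (p.π k ω)) ω' (fun hc => h (by rw [← h2]; exact hc)), mul_zero]
    · rw [e1_ind_neg h2, zero_mul]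

theorem pr_pull {T S : Sp} (p : Pj T S) (E : ∀ k, (S.F k).Ω → Prop) (k : ℕ) :
    T.pr (fun k w => E k (p.π k w)) k = S.pr E k := p.mass_eq k (E k)

theorem ul_pr_pull {T S : Sp} (p : Pj T S) (E : ∀ k, (S.F k).Ω → Prop) :
    ul (T.pr (fun k w => E k (p.π k w))) = ul (S.pr E) := by
  congr 1
  funext k
  exact pr_pull p E k

theorem pos_pull {T S : Sp} (p : Pj T S) {E : ∀ k, (S.F k).Ω → Prop} (hE : 0 < ul (S.pr E)) :
    0 < ul (T.pr (fun k w => E k (p.π k w))) := by rw [ul_pr_pull]; exact hE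

/-- the projection of an extension, restricted to an event -/
def rsP {T S : Sp} (p : Pj T S) (E : ∀ k, (S.F k).Ω → Prop) : Pj (T.rest fun k w => E k (p.π k w)) (S.rest E) where
  π := p.π
  law := by
    intro k
    show push (p.π k) ((T.F k).restμ fun w => E k (p.π k w)) = (S.F k).restμ (E k)
    have h0 : (T.F k).pb (fun w => E k (p.π k w)) = (S.F k).pb (E k) := pr_pull p E k
    by_cases h : (S.F k).pb (E k) = 0
    · rw [(S.F k).restμ_eq' _ h, (T.F k).restμ_eq' _ (h0.trans h)]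
      exact p.law k
    · rw [(S.F k).restμ_eq _ h, (T.F k).restμ_eq _ (fun hc => h (h0.symm.trans hc)), h0, ← push_res p k (E k)]
      funext ω
      rw [push_ind, push_ind, Finset.mul_sum]
      apply Finset.sum_congr rfl
      intro x _
      ring
  hZ := by
    intro k ω ω' h h'
    exact p.hZ k ω ω' ((T.F k).rest_supp _ ω h).1 ((T.F k).rest_supp _ ω' h').1
  hn := p.hn

section

variable {T S : Sp} (p : Pj T S) (E : ∀ k, (S.F k).Ω → Prop) (hE : 0 < ul (S.pr E))

theorem rsP_map (x : S.L) : (rsP p E).map (restL E hE x) = restL _ (pos_pull p hE) (p.map x) := by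
  induction x using Sp.cl_ind with | _ A
  rfl

theorem rsP_qs (f : QS S) : (rsP p E).qs (QS.rest E hE f) = QS.rest _ (pos_pull p hE) (p.qs f) := by
  obtain ⟨f, rfl⟩ := QS.mk_surj f
  rfl

end

/-- either an event is typical or its complement has positive probability -/
theorem typ_or_pos (E : ∀ k, (S.F k).Ω → Prop) : Typ E ∨ 0 < ul (S.pr fun k ω => ¬ E k ω) := by
  rcases lt_or_ge 0 (ul (S.pr fun k ω => ¬ E k ω)) with h | h
  · exact Or.inr h
  · left
    have h1 := ul_pr_compl (S := S) E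
    have h2 : (0 : ℝ) ≤ ul (S.pr fun k ω => ¬ E k ω) :=
      const_le_ul (UB_pr _) (Eventually.of_forall fun k => pr_nonneg _ k)
    rw [Typ_iff]
    have h4 := ul_tendsto (UB_pr (S := S) E)
    have h5 : ul (S.pr E) = 1 := by linarith
    rwa [h5] at h4

/-- splitting of conditional entropies -/
theorem h_split (E : ∀ k, (S.F k).Ω → Prop) (hE : 0 < ul (S.pr E)) (hE' : 0 < ul (S.pr fun k ω => ¬ E k ω))
    (x y : S.L) : h x y = ul (S.pr E) * h (restL E hE x) (restL E hE y) +
      (1 - ul (S.pr E)) * h (restL _ hE' x) (restL _ hE' y) := by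
  have h1 := H_split E hE hE' (x ⊔ y)
  have h2 := H_split E hE hE' y
  rw [restL_sup, restL_sup] at h1
  unfold h
  linarith

/-- conditional informations on events -/
theorem I_split_le (E : ∀ k, (S.F k).Ω → Prop) (hE : 0 < ul (S.pr E)) (x y z : S.L) :
    ul (S.pr E) * I (restL E hE x) (restL E hE y) (restL E hE z) ≤ I x y z := by
  rcases typ_or_pos E with h1 | hE'
  · rw [ul_pr_typ E h1, one_mul, I_eq, I_eq, ← restL_sup, h_restL_typ E h1, h_restL_typ E h1]
  · have e1 := h_split E hE hE' x z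
    have e2 := h_split E hE hE' x (y ⊔ z)
    have e3 : 0 ≤ 1 - ul (S.pr E) := by
      rw [← ul_pr_compl]
      exact hE'.le
    have e4 := I_nonneg (restL _ hE' x) (restL _ hE' y) (restL _ hE' z)
    rw [restL_sup, restL_sup] at e2
    rw [I_eq] at e4 ⊢
    rw [I_eq]
    nlinarith [mul_nonneg e3 e4]

theorem h_split_le (E : ∀ k, (S.F k).Ω → Prop) (hE : 0 < ul (S.pr E)) (x y : S.L) :
    ul (S.pr E) * h (restL E hE x) (restL E hE y) ≤ h x y := by
  rcases typ_or_pos E with h1 | hE'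
  · rw [ul_pr_typ E h1, one_mul, h_restL_typ E h1]
  · have e1 := h_split E hE hE' x y
    have e3 : 0 ≤ 1 - ul (S.pr E) := by
      rw [← ul_pr_compl]
      exact hE'.le
    have e4 := h_nonneg (restL _ hE' x) (restL _ hE' y)
    nlinarith [mul_nonneg e3 e4]

section

variable (E : ∀ k, (S.F k).Ω → Prop) (hE : 0 < ul (S.pr E))

theorem eval_hom {A B : Type*} [CommRing A] [CommRing B] (f : A →+* B) {σ : Type*} (P : MvPolynomial σ A)
    (x : σ → A) : f (MvPolynomial.eval x P) = MvPolynomial.eval (fun i => f (x i)) (MvPolynomial.map f P) := by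
  rw [MvPolynomial.eval_map, ← MvPolynomial.eval₂_id, MvPolynomial.eval₂_comp_left]
  rfl

theorem rest_PK {A : S.L} {P : MvPolynomial κ (QS S)} (hP : P ∈ PK A) :
    MvPolynomial.map (QS.rest E hE) P ∈ PK (restL E hE A) := by
  intro m
  rw [MvPolynomial.coeff_map, QS.rest_dg]
  exact restL_mono E hE (hP m)

theorem PLeaf.rest {A : S.L} {Q : ι → QS S} (h : PLeaf A Q) :
    PLeaf (restL E hE A) (fun j => QS.rest E hE (Q j)) := by
  obtain ⟨n, Y, Φ, hY, hΦ, hQ⟩ := h
  refine ⟨n, fun i => QS.rest E hE (Y i), fun j => MvPolynomial.map (QS.rest E hE) (Φ j), hY.rest E hE,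
    fun j => rest_PK E hE (hΦ j), fun j => ?_⟩
  beta_reduce
  rw [hQ j, eval_hom]

theorem ALeaf.rest [Fintype ι] {A : S.L} {Q : ι → QS S} (h : ALeaf A Q) :
    ALeaf (restL E hE A) (fun j => QS.rest E hE (Q j)) := by
  apply ALeaf.mk'
  intro ε hε
  obtain ⟨W, p, A', h1, h2, h3⟩ := h (ul (S.pr E) * ε) (mul_pos hE hε)
  have hE2 := pos_pull p hE
  refine ⟨_, rsP p E, restL _ hE2 A', ?_, ?_, ?_⟩
  · rw [rsP_map p E hE]
    exact restL_mono _ hE2 h1
  · rw [QS.rest_vd E hE, rsP_map p E hE, rsP_map p E hE]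
    have h4 := I_split_le _ hE2 A' (p.map (vd Q 1)) (p.map A)
    rw [ul_pr_pull p E] at h4
    have h5 := h4.trans (h2 (vd Q 1))
    exact le_of_mul_le_mul_left h5 hE
  · have h4 := h3.rest _ hE2
    have h5 : (fun j => QS.rest _ hE2 (p.qs (Q j))) = fun j => (rsP p E).qs (QS.rest E hE (Q j)) :=
      funext fun j => (rsP_qs p E hE (Q j)).symm
    rwa [h5] at h4

end

end

end Pool.Agent.Helper95.RIG
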