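import Pool.Agent.Helper95.RIG.Yst

/-! RIG: (Y) up to ε suffices for THEOREM R. -/

namespace Pool.Agent.Helper95.RIG

open Finset Filter Topology Pool.Agent.Helper69.RK Pool.Agent.Helper31.EC

noncomputable section

open Sp QS

namespace Cor

variable {S : Sp} {d N : ℕ} (c : Cor S d N) {z : Fin N} {rho : ℝ}

/-- (Y) up to `ε`: `K` is known to the base line and `V` up to `ε` -/
def FibYe (V : S.L) (i : Fin c.r) (ε : ℝ) (K : S.L) : Prop :=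
  c.b i ≤ K ∧ K ≤ c.xi i ∧ h K (V ⊔ c.b i) ≤ ε ∧ ALeaf (K ⊔ c.P) c.R ∧ Agr (c.bV i) (c.f i) K

variable {c}

theorem FibY.eps {V : S.L} {i : Fin c.r} {K : S.L} (hK : c.FibY V i K) : c.FibYe V i 0 K :=
  ⟨hK.1, hK.2.1, h_le_zero_iff.mpr hK.2.2.1, hK.2.2.2⟩

/-- THEOREM R from RIG (A) and (Y) up to every `ε` -/
theorem thmR_of_eps (hA : ∀ V : S.L, c.P ≤ V → ALeaf V c.R → c.be 1 ≤ V) (i : Fin c.r)
    (hY : ∀ ε : ℝ, 0 < ε → ∃ K, c.FibYe (c.P ⊔ c.be 1) i ε K) : c.ThmR i := by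
  intro W π π' h1 h2
  rw [← h_le_zero_iff]
  refine le_of_forall_pos_le_add fun ε hε => ?_
  obtain ⟨K, _, _, k3, k4, k5⟩ := hY ε hε
  have e1 := hA (K ⊔ c.P) le_sup_right k4
  have e2 : π.map K = π'.map K := k5 W π π' h1 h2
  have e3 : π'.map (c.be 1) ≤ π.map K ⊔ π'.map c.P := by
    rw [e2, ← π'.map_sup]
    exact π'.map_mono e1
  calc h (π'.map (c.be 1)) (π.map (c.P ⊔ c.be 1 ⊔ c.b i) ⊔ π'.map c.P)
      ≤ h (π.map K ⊔ π'.map c.P) (π.map (c.P ⊔ c.be 1 ⊔ c.b i) ⊔ π'.map c.P) := h_mono e3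
    _ ≤ h (π.map K) (π.map (c.P ⊔ c.be 1 ⊔ c.b i) ⊔ π'.map c.P) +
        h (π'.map c.P) (π.map (c.P ⊔ c.be 1 ⊔ c.b i) ⊔ π'.map c.P) := h_sup_le _ _ _
    _ ≤ h (π.map K) (π.map (c.P ⊔ c.be 1 ⊔ c.b i)) + 0 :=
        add_le_add (h_anti le_sup_left) (h_zero le_sup_right).le
    _ ≤ 0 + ε := by
        rw [π.h_map]
        linarith

/-- (Y) up to `ε` from a leaf of the curve and of the vertical structure up to `ε` -/
theorem fibYe_of (hS : ST_SLICE) (hc : c.Ax z rho) {V : S.L} (i : Fin c.r) {ε : ℝ} {K : S.L} (h1 : c.b i ≤ K)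
    (h2 : K ≤ c.xi i) (h3 : h K (V ⊔ c.b i) ≤ ε) (h4 : ALeaf K c.tR) (h5 : Agr (c.bV i) (c.f i) K) :
    c.FibYe V i ε K :=
  have hK := fibY_of (V := K) hS hc i h1 h2 le_sup_left h4 h5
  ⟨h1, h2, h3, hK.2.2.2⟩

end Cor

end

end Pool.Agent.Helper95.RIG
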