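import Pool.Agent.Helper95.RIG.Rs

/-! RIG: statements. Structure theorem at the exact level (`STL`), slicing, vertical systems (`VS`), classes of
corners (`RCls`), corners (`Cor`). -/

namespace Pool.Agent.Helper95.RIG

open Finset Filter Topology Pool.Agent.Helper69.RK Pool.Agent.Helper31.EC

noncomputable section

open Sp QS

/-! ## Slicing -/

/-- SLICING (PIECE A): digits of a coordinate can be moved into the label -/
def ST_SLICE : Prop :=
  ∀ (S : Sp) (m : ℕ) (A : S.L) (Q : Fin m → QS S) (j : Fin m), PLeaf A Q → ALeaf (A ⊔ dg (Q j) 1) Q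

/-! ## The structure theorem at the exact level -/

/-- the information `K` is the same at two points with (literally) the same base variable `V` and the same `f` -/
def Agr {S : Sp} {α : ℕ → Type} (V : ∀ k, (S.F k).Ω → α k) {n : ℕ} (f : Fin n → QS S) (K : S.L) : Prop :=
  ∀ (W : Sp) (π π' : Pj W S), (∀ k w, (W.F k).μ w ≠ 0 → V k (π.π k w) = V k (π'.π k w)) →
    (∀ j, π.qs (f j) = π'.qs (f j)) → π.map K = π'.map K

/-- `K` is a common leaf of the types `Lam` through the point `Q` over the base `B` -/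
structure STc {S : Sp} (B : S.L) {ι κ : Type} [Fintype ι] (Q : ι → QS S) (Lam : κ → S.L) (K : S.L) : Prop where
  base : B ≤ K
  fn : K ≤ B ⊔ vd Q 1
  le : ∀ i, K ≤ Lam i
  leaf : ALeaf K Q

/-- a literal chart of an exact type: the coefficients are the same at two points with the same `V` and `f` -/
def LitChart {S : Sp} {α : ℕ → Type} (V : ∀ k, (S.F k).Ω → α k) {n : ℕ} (f : Fin n → QS S) (A : S.L) {ι : Type}
    (Q : ι → QS S) : Prop :=
  ∃ (e : ℕ) (Y : Fin e → QS S) (Φ : ι → MvPolynomial (Fin e) (QS S)), Rl Y A ∧ (∀ j, Φ j ∈ PK A) ∧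
    (∀ j, Q j = MvPolynomial.eval Y (Φ j)) ∧
    ∀ (W : Sp) (π π' : Pj W S), (∀ k w, (W.F k).μ w ≠ 0 → V k (π.π k w) = V k (π'.π k w)) →
      (∀ j, π.qs (f j) = π'.qs (f j)) → ∀ j, MvPolynomial.map π.qs (Φ j) = MvPolynomial.map π'.qs (Φ j)

/-- STL(m): structure theorem in dimension `m` at the exact level, with agreement along exact types with literal
charts -/
def STL (m : ℕ) : Prop :=
  ∀ (S : Sp) (α : ℕ → Type) (V : ∀ k, (S.F k).Ω → α k), Bdd V → ∀ (Q : Fin m → QS S) (r : ℕ) (Lam : Fin r → S.L),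
    (∀ i, io V ≤ Lam i) → (∀ i, ALeaf (Lam i) Q) →
    ∃ K : S.L, STc (io V) Q Lam K ∧
      ∀ i n (f : Fin n → QS S), Lam i = io V ⊔ vd f 1 → LitChart V f (Lam i) Q → Agr V f K

/-- the same with types on extensions, in the form of a least structure (helper56): `K` does not depend on the types -/
def STLmin (m : ℕ) : Prop :=
  ∀ (S : Sp) (α : ℕ → Type) (V : ∀ k, (S.F k).Ω → α k), Bdd V → ∀ (Q : Fin m → QS S),
    ∃ K : S.L, io V ≤ K ∧ K ≤ io V ⊔ vd Q 1 ∧ ALeaf K Q ∧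
      (∀ (T : Sp) (p : Pj T S) (A : T.L), p.map (io V) ≤ A → ALeaf A (fun j => p.qs (Q j)) → p.map K ≤ A) ∧
      ∀ n (f : Fin n → QS S), LitChart V f (io V ⊔ vd f 1) Q → Agr V f K

theorem stl_of_min {m : ℕ} (h : STLmin m) : STL m := by
  intro S α V hV Q r Lam hl ha
  obtain ⟨K, h1, h2, h3, h4, h5⟩ := h S α V hV Q
  refine ⟨K, ⟨h1, h2, fun i => ?_, h3⟩, fun i n f e g => h5 n f (by rwa [e] at g)⟩
  have h6 := h4 S (Pj.id S) (Lam i) (by rw [Pj.id_map]; exact hl i) (by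
    have h7 : (fun j => (Pj.id S).qs (Q j)) = Q := funext fun j => Pj.id_qs (Q j)
    rw [h7]
    exact ha i)
  rwa [Pj.id_map] at h6

/-! ## Leaves of bounded complexity -/

/-- exact polynomial leaf of complexity at most `g` (number of parameters and degrees) -/
def PLf {S : Sp} {ι : Type} (g : ℕ) (A : S.L) (Q : ι → QS S) : Prop :=
  ∃ n, n ≤ g ∧ ∃ (Y : Fin n → QS S) (Φ : ι → MvPolynomial (Fin n) (QS S)),
    Rl Y A ∧ (∀ j, Φ j ∈ PK A) ∧ (∀ j, (Φ j).totalDegree ≤ g) ∧ ∀ j, Q j = MvPolynomial.eval Y (Φ j)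

theorem PLf.leaf {S : Sp} {ι : Type} {g : ℕ} {A : S.L} {Q : ι → QS S} (h : PLf g A Q) : PLeaf A Q := by
  obtain ⟨n, _, Y, Φ, hY, hΦ, _, hQ⟩ := h
  exact ⟨n, Y, Φ, hY, hΦ, hQ⟩

theorem PLeaf.plf {S : Sp} {ι : Type} [Fintype ι] {A : S.L} {Q : ι → QS S} (h : PLeaf A Q) : ∃ g, PLf g A Q := by
  obtain ⟨n, Y, Φ, hY, hΦ, hQ⟩ := h
  refine ⟨max n (univ.sup fun j => (Φ j).totalDegree), n, le_max_left _ _, Y, Φ, hY, hΦ, fun j => ?_, hQ⟩
  exact (le_sup (f := fun j => (Φ j).totalDegree) (mem_univ j)).trans (le_max_right _ _)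

theorem PLf.mono {S : Sp} {ι : Type} {g g' : ℕ} {A : S.L} {Q : ι → QS S} (h : PLf g A Q) (hg : g ≤ g') :
    PLf g' A Q := by
  obtain ⟨n, hn, Y, Φ, hY, hΦ, hd, hQ⟩ := h
  exact ⟨n, hn.trans hg, Y, Φ, hY, hΦ, fun j => (hd j).trans hg, hQ⟩

theorem PLf.pull {S T : Sp} {ι : Type} (p : Pj T S) {g : ℕ} {A : S.L} {Q : ι → QS S} (h : PLf g A Q) :
    PLf g (p.map A) (fun j => p.qs (Q j)) := by
  obtain ⟨n, hn, Y, Φ, hY, hΦ, hd, hQ⟩ := h
  refine ⟨n, hn, fun i => p.qs (Y i), fun j => MvPolynomial.map p.qs (Φ j), hY.pull p, fun j => map_PK p (hΦ j),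
    fun j => (totalDegree_map_le _ _).trans (hd j), fun j => ?_⟩
  beta_reduce
  rw [hQ j, qs_eval]

theorem PLf.rest {S : Sp} {ι : Type} (E : ∀ k, (S.F k).Ω → Prop) (hE : 0 < ul (S.pr E)) {g : ℕ} {A : S.L}
    {Q : ι → QS S} (h : PLf g A Q) : PLf g (restL E hE A) (fun j => QS.rest E hE (Q j)) := by
  obtain ⟨n, hn, Y, Φ, hY, hΦ, hd, hQ⟩ := h
  refine ⟨n, hn, fun i => QS.rest E hE (Y i), fun j => MvPolynomial.map (QS.rest E hE) (Φ j), hY.rest E hE,
    fun j => rest_PK E hE (hΦ j), fun j => (totalDegree_map_le _ _).trans (hd j), fun j => ?_⟩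
  beta_reduce
  rw [hQ j, eval_hom]

/-! ## Vertical systems -/

/-- base digits `P`, vertical coordinates `R`, boxes `be s`, `s ∈ [0,1]` -/
structure VS (S : Sp) (N : ℕ) where
  P : S.L
  R : Fin N → QS S
  be : ℝ → S.L

namespace VS

variable {S : Sp} {N : ℕ}

def pull {T : Sp} (v : VS S N) (p : Pj T S) : VS T N where
  P := p.map v.P
  R := fun j => p.qs (v.R j)
  be := fun s => p.map (v.be s)

def rest (v : VS S N) (E : ∀ k, (S.F k).Ω → Prop) (hE : 0 < ul (S.pr E)) : VS (S.rest E) N where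
  P := restL E hE v.P
  R := fun j => QS.rest E hE (v.R j)
  be := fun s => restL E hE (v.be s)

/-- axioms of the boxes; `s` is normalised such that `be s` is known to the digits of level `s` of `R` -/
structure Ax (v : VS S N) : Prop where
  zero : v.be 0 ≤ v.P
  mono : ∀ s s' : ℝ, 0 ≤ s → s ≤ s' → s' ≤ 1 → v.be s ≤ v.be s' ⊔ v.P
  cont : ∃ C : ℝ, ∀ s s' : ℝ, 0 ≤ s → s ≤ s' → s' ≤ 1 → h (v.be s') (v.be s ⊔ v.P) ≤ C * (s' - s)
  dig : ∀ s : ℝ, 0 ≤ s → s ≤ 1 → v.be s ≤ v.P ⊔ vd v.R s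

/-- `v'` is the zoom of `v` into the box `be s` -/
structure Zm {S' : Sp} (v : VS S N) (s : ℝ) (v' : VS S' N) (up : S.L → S'.L) : Prop where
  mono : ∀ x y, x ≤ y → up x ≤ up y
  refl : ∀ x y, up x ≤ up y → x ≤ y ⊔ v.be s
  P : v'.P ≤ up v.P
  be : ∀ s' : ℝ, 0 ≤ s' → s' ≤ 1 → up (v.be (s + (1 - s) * s')) ≤ v'.be s' ⊔ v'.P
  leaf : ∀ A, v.P ≤ A → v.be s ≤ A → PLeaf A v.R → PLeaf (up A) v'.R

end VS

/-- a class of vertical systems to which RIG applies -/
structure RCls (N : ℕ) (C : ∀ S : Sp, VS S N → Prop) : Prop where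
  ax : ∀ S v, C S v → v.Ax
  pull : ∀ S T (p : Pj T S) v, C S v → C T (v.pull p)
  rest : ∀ S v E hE, C S v → C (S.rest E) (v.rest E hE)
  zoom : ∀ S v (s : ℝ), C S v → 0 < s → s < 1 → ∃ (S' : Sp) (v' : VS S' N) (up : S.L → S'.L),
    C S' v' ∧ VS.Zm v s v' up
  /-- (Q), LEMMA Q: an exact vertical structure has no (almost) unit direction on any event -/
  lemQ : ∀ S (v : VS S N), C S v → ∀ W : S.L, v.P ≤ W → PLeaf W v.R → ∃ th : ℝ, 0 < th ∧
    ∀ E hE j, h (dg ((v.rest E hE).R j) 1) (restL E hE W) ≤ 1 - th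

/-- (Q) in the form uniform over the class, for every complexity -/
def LemQU (N : ℕ) (C : ∀ S : Sp, VS S N → Prop) : Prop :=
  ∀ g : ℕ, ∃ th : ℝ, 0 < th ∧ ∀ S (v : VS S N), C S v → ∀ W : S.L, v.P ≤ W → PLf g W v.R →
    ∀ j, h (dg (v.R j) 1) W ≤ 1 - th

theorem LemQU.lemQ {N : ℕ} {C : ∀ S : Sp, VS S N → Prop} (hC : LemQU N C)
    (hr : ∀ S v E hE, C S v → C (S.rest E) (v.rest E hE)) {S : Sp} {v : VS S N} (hv : C S v) {W : S.L}
    (hP : v.P ≤ W) (hW : PLeaf W v.R) : ∃ th : ℝ, 0 < th ∧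
    ∀ E hE j, h (dg ((v.rest E hE).R j) 1) (restL E hE W) ≤ 1 - th := by
  obtain ⟨g, hg⟩ := hW.plf
  obtain ⟨th, h1, h2⟩ := hC g
  exact ⟨th, h1, fun E hE j => h2 (S.rest E) (v.rest E hE) (hr S v E hE hv) (restL E hE W) (restL_mono E hE hP)
    (hg.rest E hE) j⟩

/-- RIG (A): the box is the smallest vertical structure -/
def ST_RIGA : Prop :=
  ∀ (N : ℕ) (C : ∀ S : Sp, VS S N → Prop), RCls N C → ∀ S (v : VS S N), C S v → ∀ V : S.L, v.P ≤ V →
    ALeaf V v.R → v.be 1 ≤ V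

/-! ## Corners -/

/-- the data of a corner over a flat base: base coordinates `q` (`q 0` is the height), all digits `O` of the point,
types `i` (curves) with curve variables `f i` (finitely many functions to full precision) over the base line
`bV i` (a literal variable: all digits of the base line) -/
structure Cor (S : Sp) (d N : ℕ) extends VS S N where
  q : Fin (d + 1) → QS S
  O : S.L
  r : ℕ
  nf : Fin r → ℕ
  f : ∀ i, Fin (nf i) → QS S
  al : Fin r → ℕ → Type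
  bV : ∀ i k, (S.F k).Ω → al i k

namespace Cor

variable {S : Sp} {d N : ℕ} (c : Cor S d N)

def b (i : Fin c.r) : S.L := io (c.bV i)

/-- the curve -/
def xi (i : Fin c.r) : S.L := c.b i ⊔ vd (c.f i) 1

/-- the fibre point `(t, R)` -/
def tR : Fin (N + 1) → QS S := Fin.cons (c.q 0) c.R

/-- the axioms of a corner (`z` = coordinate of the highest weight, `rho` = deficit) -/
structure Ax (z : Fin N) (rho : ℝ) : Prop extends c.toVS.Ax where
  bdd : ∀ i, Bdd (c.bV i)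
  hq : vd c.q 1 ≤ c.P
  hP : c.P ≤ c.O
  hR : vd c.R 1 ≤ c.O
  /-- straight base lines -/
  line : ∀ i, ∃ a u : Fin (d + 1) → QS S, vd a 1 ≤ c.b i ∧ vd u 1 ≤ c.b i ∧ ∀ j, c.q j = a j + c.q 0 * u j
  /-- the curve: `R` is a polynomial in the height, which is real over the curve; the coefficients are among the
  curve functions -/
  curve : ∀ i, h (dg (c.q 0) 1) (c.xi i) = 1 ∧ ∀ j, ∃ (k : ℕ) (w : Fin (k + 1) → Fin (c.nf i)),
    c.R j = pe (fun l => c.f i (w l)) (c.q 0)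
  /-- directions are independent of the point given the base point -/
  ind : I (univ.sup c.b) c.O c.P = 0
  /-- further digits of the base point -/
  far1 : ∀ i, I c.P (c.xi i ⊔ vd c.R 1) (c.b i ⊔ dg (c.q 0) 1) = 0
  far2 : I c.P (vd c.R 1) (vd c.q 1) = 0
  boxleaf : ALeaf (c.P ⊔ c.be 1) c.R
  /-- (D) -/
  rho0 : 0 < rho
  rho1 : rho ≤ 1
  dA : ∀ k : ℝ, 0 ≤ k → k ≤ 1 →
    h (dg (c.R z) k) (c.P ⊔ (univ.erase z).sup fun j => dg (c.R j) 1) = (1 - rho) * k
  dB : ∀ k : ℝ, 0 ≤ k → k ≤ 1 →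
    h (dg (c.R z) k) (c.P ⊔ (univ.erase z).sup fun j => dg (c.R j) k) = (1 - rho) * k

/-- (Y), STRONG for the fibres: the vertical structure `V` carried along the curves of type `i`: `K` is carried by the
curve, is known to the base line and `V`, and is again a vertical structure at the point -/
def FibY (V : S.L) (i : Fin c.r) (K : S.L) : Prop :=
  c.b i ≤ K ∧ K ≤ c.xi i ∧ K ≤ V ⊔ c.b i ∧ ALeaf (K ⊔ c.P) c.R ∧ Agr (c.bV i) (c.f i) K

/-- RIG (B), THEOREM R: along a curve of type `i`, the box at one point is known to the box at another point, the base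
line and the two heights -/
def ThmR (i : Fin c.r) : Prop :=
  ∀ (W : Sp) (π π' : Pj W S), (∀ k w, (W.F k).μ w ≠ 0 → c.bV i k (π.π k w) = c.bV i k (π'.π k w)) →
    (∀ j, π.qs (c.f i j) = π'.qs (c.f i j)) →
    π'.map (c.be 1) ≤ π.map (c.P ⊔ c.be 1 ⊔ c.b i) ⊔ π'.map c.P

end Cor

/-- THEOREM R from RIG (A) and (Y) -/
theorem thmR_of {S : Sp} {d N : ℕ} (c : Cor S d N) (hA : ∀ V : S.L, c.P ≤ V → ALeaf V c.R → c.be 1 ≤ V)
    (i : Fin c.r) {K : S.L} (hK : c.FibY (c.P ⊔ c.be 1) i K) : c.ThmR i := by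
  intro W π π' h1 h2
  obtain ⟨_, _, k3, k4, k5⟩ := hK
  have e1 := hA (K ⊔ c.P) le_sup_right k4
  have e2 : π.map K = π'.map K := k5 W π π' h1 h2
  calc π'.map (c.be 1) ≤ π'.map (K ⊔ c.P) := π'.map_mono e1
    _ = π.map K ⊔ π'.map c.P := by rw [π'.map_sup, e2]
    _ ≤ π.map (c.P ⊔ c.be 1 ⊔ c.b i) ⊔ π'.map c.P := sup_le_sup_right (π.map_mono k3) _

end

end Pool.Agent.Helper95.RIG
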