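import Pool.Agent.Helper95.RIG.Rs
import Pool.Agent.Helper57.TA.Mv

/-! Exact entropy calculus: DICHOTOMY for scalar leaves: either the first digits of a scalar with a polynomial leaf are
known to the label, or on some event it is almost real over the label. -/

namespace Pool.Agent.Helper95.RIG

open Finset Filter Topology Pool.Agent.Helper69.RK Pool.Agent.Helper31.EC

noncomputable section

open Sp QS Pool.Agent.Helper57.TA

variable {S : Sp} {ι κ : Type}

/-- Taylor formula in one of the variables -/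
theorem mv_taylor {A σ : Type*} [CommRing A] [DecidableEq σ] (P : MvPolynomial σ A) (y y' : σ → A) (i : σ)
    (h : ∀ j, j ≠ i → y' j = y j) : ∃ G : A, MvPolynomial.eval y' P - MvPolynomial.eval y P =
      (y' i - y i) * (MvPolynomial.eval y (MvPolynomial.pderiv i P) + (y' i - y i) * G) := by
  induction P using MvPolynomial.induction_on with
  | C a => exact ⟨0, by simp⟩
  | add p q hp hq =>
    obtain ⟨G, hG⟩ := hp
    obtain ⟨G', hG'⟩ := hq
    refine ⟨G + G', ?_⟩
    rw [map_add, map_add, map_add, map_add]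
    linear_combination hG + hG'
  | mul_X p j hp =>
    obtain ⟨G, hG⟩ := hp
    rw [Derivation.leibniz, smul_eq_mul, smul_eq_mul, map_mul, map_mul, map_add, map_mul, map_mul,
      MvPolynomial.eval_X, MvPolynomial.eval_X, MvPolynomial.pderiv_X]
    by_cases hj : j = i
    · subst hj
      refine ⟨G * y j + MvPolynomial.eval y (MvPolynomial.pderiv j p) + (y' j - y j) * G, ?_⟩
      rw [Pi.single_eq_same, map_one]
      linear_combination y' j * hG
    · refine ⟨G * y j, ?_⟩
      rw [Pi.single_eq_of_ne hj, map_zero, h j hj]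
      linear_combination y j * hG

/-- small functions are nilpotent -/
theorem isNilpotent_of_mem {e : QS S} {δ : ℝ} (hδ : 0 < δ) (he : e ∈ Id S δ) : IsNilpotent e := by
  obtain ⟨N, hN⟩ := exists_nat_ge (1 / (min δ 1))
  have hm : 0 < min δ 1 := lt_min hδ one_pos
  obtain ⟨g, hg, _⟩ := exists_div hm.le (min_le_right _ _) (Id_mono (min_le_left δ 1) he)
  refine ⟨N, ?_⟩
  have h1 : ∀ M : ℕ, (sc S (min δ 1)) ^ M ∈ Id S (M * min δ 1) := by
    intro M
    induction M with
    | zero => rw [Nat.cast_zero, zero_mul]; exact mem_Id_nonpos le_rfl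
    | succ M ih =>
      rw [pow_succ']
      have h2 := sc_mul_mem hm.le ih
      rwa [show min δ 1 + M * min δ 1 = ((M + 1 : ℕ) : ℝ) * min δ 1 by push_cast; ring] at h2
  rw [← mem_Id_one, hg, mul_pow]
  apply Ideal.mul_mem_right
  apply Id_mono _ (h1 N)
  rwa [div_le_iff₀ hm] at hN

theorem isUnit_one_add {e : QS S} {δ : ℝ} (hδ : 0 < δ) (he : e ∈ Id S δ) : IsUnit (1 + e) :=
  (isNilpotent_of_mem hδ he).isUnit_one_add

open Classical in
/-- a function which is not small is large on an event -/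
theorem exists_event {f : QS S} {τ : ℝ} (hτ0 : 0 ≤ τ) (hτ : τ ≤ 1) (hf : f ∉ Id S τ) :
    ∃ (E : ∀ k, (S.F k).Ω → Prop) (hE : 0 < ul (S.pr E)) (u : QS (S.rest E)),
      QS.rest E hE f * u = sc (S.rest E) τ := by
  obtain ⟨f, rfl⟩ := QS.mk_surj f
  rw [mem_Id_iff, min_eq_left hτ, TR.ag_iff_levels] at hf
  push Not at hf
  obtain ⟨δ, hδ, hf⟩ := hf
  set E : ∀ k, (S.F k).Ω → Prop := fun k ω => ¬ |TR.ev f k ω - TR.ev 0 k ω| ≤ S.dl (τ - δ) k with hE
  have hEp : 0 < ul (S.pr E) := by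
    rcases typ_or_pos (S := S) (fun k ω => |TR.ev f k ω - TR.ev 0 k ω| ≤ S.dl (τ - δ) k) with h | h
    · exact absurd h hf
    · exact h
  refine ⟨E, hEp, ?_⟩
  have hsup : ∀ᶠ k in UF, ∀ ω, ((S.rest E).F k).μ ω ≠ 0 → S.dl τ k ≤ |TR.ev f k ω| ∧ TR.ev f k ω ≠ 0 := by
    have h1 : ∀ᶠ k in UF, 0 < S.pr E k := by
      have h2 := ul_tendsto (UB_pr (S := S) E)
      exact h2.eventually (lt_mem_nhds hEp)
    filter_upwards [h1] with k hk ω hω
    have h3 := ((S.F k).rest_supp (E k) ω hω).2 hk.ne'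
    have h4 : ¬ |TR.ev f k ω - TR.ev 0 k ω| ≤ S.dl (τ - δ) k := h3
    rw [TR.ev_zero, sub_zero, not_le] at h4
    have h5 : S.dl τ k ≤ S.dl (τ - δ) k := by
      unfold Sp.dl
      apply Real.rpow_le_rpow_of_exponent_le (by norm_num)
      nlinarith [(S.F k).pos]
    refine ⟨h5.trans h4.le, fun hc => ?_⟩
    rw [hc, abs_zero] at h4
    exact absurd h4 (not_lt.mpr (S.dl_pos _ _).le)
  set u : TR (S.rest E) := ⟨fun k ω => if S.dl τ k ≤ |TR.ev f k ω| then S.dl τ k / TR.ev f k ω else 0,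
    fun _ => 1, (S.rest E).Sub_const zero_le_one, Eventually.of_forall fun k ω _ => by
      beta_reduce
      split_ifs with h1
      · rw [abs_div, abs_of_pos (S.dl_pos _ _)]
        exact div_le_one_of_le₀ h1 (abs_nonneg _)
      · rw [abs_zero]; exact zero_le_one⟩ with hu
  refine ⟨QS.mk u, ?_⟩
  rw [QS.rest_mk]
  unfold sc
  rw [← map_mul, QS.mk_eq]
  apply TR.Te.ag
  refine ⟨fun _ _ => True, Sp.Typ_true, ?_⟩
  filter_upwards [hsup] with k hk ω a _
  obtain ⟨h1, h2⟩ := hk ω a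
  rw [TR.ev_mul, ev_scT hτ0]
  show TR.ev f k ω * (if S.dl τ k ≤ |TR.ev f k ω| then S.dl τ k / TR.ev f k ω else 0) = S.dl τ k
  rw [if_pos h1]
  field_simp

variable (S) in
/-- real constants -/
def rcn : ℝ →+* QS S := QS.mk.comp
  { toFun := fun c => ⟨fun _ _ => c, fun _ => |c|, S.Sub_const (abs_nonneg c), Eventually.of_forall fun _ _ _ => le_rfl⟩
    map_one' := rfl
    map_mul' := fun _ _ => rfl
    map_zero' := rfl
    map_add' := fun _ _ => rfl }

theorem dg_rcn (c : ℝ) : dg (rcn S c) 1 = ⊥ := by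
  apply le_antisymm _ bot_le
  show dg (QS.mk _) 1 ≤ _
  rw [dg_mk _ le_rfl]
  exact (TR.const_dg _ (Eventually.of_forall fun k ω ω' => rfl) 1).le

theorem isUnit_nat {n : ℕ} (hn : n ≠ 0) : IsUnit (n : QS S) := by
  have h1 : (n : QS S) = rcn S n := by rw [map_natCast]
  rw [h1]
  apply IsUnit.of_mul_eq_one (rcn S (1 / n))
  rw [← map_mul, mul_one_div_cancel (Nat.cast_ne_zero.mpr hn), map_one]

theorem nat_know (A : S.L) (n : ℕ) : dg (n : QS S) 1 ≤ A := by
  have h1 : (n : QS S) = rcn S n := by rw [map_natCast]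
  rw [h1, dg_rcn]
  exact bot_le

theorem pd_PK {σ : Type} {A : S.L} {P : MvPolynomial σ (QS S)} (hP : P ∈ PK A) (i : σ) :
    MvPolynomial.pderiv i P ∈ PK A := by
  intro m
  rw [MvPolynomial.coeff_pderiv]
  apply (Kn S 1 le_rfl A).mul_mem (hP _)
  exact (Kn S 1 le_rfl A).add_mem (nat_know A _) (Kn S 1 le_rfl A).one_mem

/-- digits of a real variable -/
theorem h_dg_real {x : QS S} {A : S.L} (hx : h (dg x 1) A = 1) {r : ℝ} (h0 : 0 ≤ r) (h1 : r ≤ 1) :
    h (dg x r) A = r := by
  have e1 := h_chain (dg x r) (dg x 1) A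
  rw [sup_eq_right.mpr (dg_mono x h1), hx] at e1
  have e2 : h (dg x 1) (dg x r ⊔ A) ≤ 1 - r := (h_anti le_sup_left).trans (h_dg_dg x h1)
  have e3 : h (dg x r) A ≤ r := (h_le_H _ _).trans (H_dg_le x h0)
  linarith

/-- two literal copies given `z`, given functions `c` and given the digits of level `a` of `x` -/
theorem digits_of_copies {ι : Type} [Fintype ι] (f : ι → QS S) (x : QS S) {a r : ℝ} (ha0 : 0 ≤ a) (ha : a ≤ 1)
    (hr : r ≤ 1) (hcop : ∀ (D : Sp) (p1 p2 : Pj D S), (∀ i, p1.qs (f i) = p2.qs (f i)) →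
      p1.qs x - p2.qs x ∈ Id D a → p1.qs x - p2.qs x ∈ Id D r) :
    dg x r ≤ vd f 1 ⊔ dg x a := by
  obtain ⟨g, hg1, hg2⟩ := exists_round x ha0 ha
  obtain ⟨D, p1, p2, h1, _, h3⟩ := exists_glue (Pj.id S) (Pj.id S) (Sum.elim f (fun _ : Unit => g))
    (Fin.elim0 : Fin 0 → S.L)
  simp only [Pj.id_map, Pj.id_qs] at h1 h3
  have e1 : p1.qs x - p2.qs x ∈ Id D a := by
    have e2 : p1.qs g = p2.qs g := h1 (Sum.inr ())
    have e3 : p1.qs (x - g) ∈ Id D a := (p1.qs_mem_Id ha).mpr hg2
    have e4 : p2.qs (x - g) ∈ Id D a := (p2.qs_mem_Id ha).mpr hg2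
    have e5 := (Id D a).sub_mem e3 e4
    rw [map_sub, map_sub, e2] at e5
    rwa [show p1.qs x - p2.qs g - (p2.qs x - p2.qs g) = p1.qs x - p2.qs x by ring] at e5
  have e6 := hcop D p1 p2 (fun i => h1 (Sum.inl i)) e1
  have e7 : p1.map (dg x r) = p2.map (dg x r) := by
    rw [← p1.qs_dg, ← p2.qs_dg]
    exact dg_eq_of_sub_mem e6 le_rfl hr
  set V := vd (Sum.elim f (fun _ : Unit => g)) 1 with hV
  have e8 : p2.map (dg x r) ≤ p2.map V := by
    have e9 := h3 (dg x r) (dg x r)
    rw [e7] at e9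
    have e10 : V ⊔ univ.sup (Fin.elim0 : Fin 0 → S.L) = V := by simp
    rw [e10] at e9
    exact le_of_I_zero le_sup_left e9
  have e11 : dg x r ≤ V := p2.map_le.mp e8
  refine e11.trans ?_
  rw [hV, vd_le]
  intro i
  rcases i with i | _
  · exact (dg_le_vd f 1 i).trans le_sup_left
  · exact hg1.trans le_sup_right

/-- a scalar with a polynomial leaf whose derivative is at least `2 ^ (-τ n)` -/
theorem leaf_full {n : ℕ} {A : S.L} {Y : Fin n → QS S} (hY : Rl Y A) {P : MvPolynomial (Fin n) (QS S)}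
    (hP : P ∈ PK A) {i : Fin n} {u : QS S} {τ a : ℝ} (hτ : 0 ≤ τ) (hτa : τ < a) (ha : a + τ ≤ 1)
    (hu : MvPolynomial.eval Y (MvPolynomial.pderiv i P) * u = sc S τ) :
    1 - τ - a ≤ h (dg (MvPolynomial.eval Y P) 1) A := by
  classical
  set z := MvPolynomial.eval Y P with hz
  set B := sd Y (univ.erase i) ⊔ A with hB
  have hYi : h (dg (Y i) 1) B = 1 := by
    have h1 := hY.sub (s := {i}) (t := univ.erase i) (by
      rw [Finset.disjoint_singleton_left]
      simp)
    have h2 : sd Y {i} = dg (Y i) 1 := by unfold sd; simp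
    rw [h2] at h1
    rw [h1]
    simp
  have key : dg (Y i) (1 - τ) ≤ dg z 1 ⊔ B ⊔ dg (Y i) a := by
    have h1 := digits_of_copies (S := S)
      (Sum.elim (fun _ : Unit => z) (Sum.elim (fun j : {j : Fin n // j ≠ i} => Y j.1)
        (fun m : {m // m ∈ P.support} => P.coeff m.1))) (Y i) (a := a) (r := 1 - τ) (by linarith) (by linarith)
      (by linarith) ?_
    · refine h1.trans (sup_le_sup_right ?_ _)
      rw [vd_le]
      rintro (_ | (⟨j, hj⟩ | ⟨m, hm⟩))
      · exact le_sup_left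
      · refine le_trans ?_ (le_sup_right (a := dg z 1))
        exact (dg_le_sd Y (Finset.mem_erase.mpr ⟨hj, mem_univ j⟩)).trans le_sup_left
      · exact (hP m).trans ((le_sup_right (a := sd Y (univ.erase i))).trans le_sup_right)
    · intro D p1 p2 hc hx
      have c1 : p1.qs z = p2.qs z := hc (Sum.inl ())
      have c2 : ∀ j, j ≠ i → p1.qs (Y j) = p2.qs (Y j) := fun j hj => hc (Sum.inr (Sum.inl ⟨j, hj⟩))
      have c3 : MvPolynomial.map p1.qs P = MvPolynomial.map p2.qs P := by
        ext m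
        rw [MvPolynomial.coeff_map, MvPolynomial.coeff_map]
        by_cases hm : m ∈ P.support
        · exact hc (Sum.inr (Sum.inr ⟨m, hm⟩))
        · rw [MvPolynomial.notMem_support_iff.mp hm, map_zero, map_zero]
      obtain ⟨G, hG⟩ := mv_taylor (MvPolynomial.map p2.qs P) (fun j => p2.qs (Y j)) (fun j => p1.qs (Y j)) i c2
      have c4 : MvPolynomial.eval (fun j => p1.qs (Y j)) (MvPolynomial.map p2.qs P) = p1.qs z := by
        rw [← c3, ← qs_eval]
      have c5 : MvPolynomial.eval (fun j => p2.qs (Y j)) (MvPolynomial.map p2.qs P) = p2.qs z := by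
        rw [← qs_eval]
      rw [c4, c5, c1, sub_self] at hG
      set d := p1.qs (Y i) - p2.qs (Y i) with hd
      have c6 : MvPolynomial.eval (fun j => p2.qs (Y j)) (MvPolynomial.pderiv i (MvPolynomial.map p2.qs P)) *
          p2.qs u = sc D τ := by
        have c7 : MvPolynomial.pderiv i (MvPolynomial.map p2.qs P) =
            MvPolynomial.map p2.qs (MvPolynomial.pderiv i P) := MvPolynomial.pderiv_map
        rw [c7, ← qs_eval, ← map_mul, hu, Pj_qs_sc]
      -- multiply by `u`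
      have c8 : d * (sc D τ + d * G * p2.qs u) = 0 := by
        rw [← c6]
        linear_combination (-p2.qs u) * hG
      have c9 : d * G * p2.qs u ∈ Id D a := Ideal.mul_mem_right _ _ (Ideal.mul_mem_right _ _ hx)
      obtain ⟨e, he, _⟩ := exists_div hτ (by linarith) (Id_mono hτa.le c9)
      have c10 : e ∈ Id D (a - τ) := by
        rw [← sc_mul_mem_iff hτ (by linarith), ← he]
        exact c9
      rw [he] at c8
      have c11 : sc D τ * d * (1 + e) = 0 := by
        rw [← c8]; ring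
      have c12 : sc D τ * d = 0 := by
        obtain ⟨w, hw⟩ := (isUnit_one_add (by linarith) c10).exists_right_inv
        calc sc D τ * d = sc D τ * d * ((1 + e) * w) := by rw [hw, mul_one]
          _ = sc D τ * d * (1 + e) * w := by ring
          _ = 0 := by rw [c11, zero_mul]
      rw [← sc_mul_mem_iff hτ le_rfl, c12]
      exact (Id D 1).zero_mem
  have h1 : h (dg (Y i) (1 - τ)) B ≤ h (dg z 1) B + h (dg (Y i) a) B := by
    have h2 : h (dg (Y i) (1 - τ)) B ≤ h (dg z 1 ⊔ dg (Y i) a) B := by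
      have h3 : h (dg (Y i) (1 - τ)) B ≤ h (dg z 1 ⊔ dg (Y i) a ⊔ B) B := h_mono (key.trans (by
        rw [sup_right_comm]))
      rwa [h_sup_right_of_le le_rfl] at h3
    exact h2.trans (h_sup_le _ _ _)
  rw [h_dg_real hYi (by linarith) (by linarith), h_dg_real hYi (by linarith) (by linarith)] at h1
  have h4 : h (dg z 1) B ≤ h (dg z 1) A := h_anti le_sup_right
  linarith

/-- DICHOTOMY -/
theorem dichotomy {A : S.L} {z : QS S} (hz : PLeaf A (fun _ : Unit => z)) {τ : ℝ} (hτ0 : 0 < τ) (hτ : 3 * τ ≤ 1)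
    (hn : ¬ dg z τ ≤ A) : ∃ (E : ∀ k, (S.F k).Ω → Prop) (hE : 0 < ul (S.pr E)),
      1 - 3 * τ ≤ h (restL E hE (dg z 1)) (restL E hE A) := by
  classical
  obtain ⟨n, Y, Φ, hY, hΦ, hQ⟩ := hz
  set P := Φ () with hP
  have hzP : z = MvPolynomial.eval Y P := hQ ()
  have hPK : P ∈ PK A := hΦ ()
  -- some coefficient is not small
  have h1 : ∃ m, m ≠ 0 ∧ P.coeff m ∉ Id S τ := by
    by_contra hcon
    push Not at hcon
    apply hn
    have h2 : z - P.coeff 0 ∈ Id S τ := by
      have h3 : z - P.coeff 0 = MvPolynomial.eval Y (P - MvPolynomial.C (P.coeff 0)) := by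
        rw [map_sub, MvPolynomial.eval_C, hzP]
      rw [h3]
      apply eval_mem_ideal
      intro m
      rw [MvPolynomial.coeff_sub, MvPolynomial.coeff_C]
      split_ifs with h4
      · rw [← h4, sub_self]; exact (Id S τ).zero_mem
      · rw [sub_zero]
        exact hcon m (fun hc => h4 hc.symm)
    rw [dg_eq_of_sub_mem h2 le_rfl (by linarith)]
    exact (dg_mono _ (by linarith)).trans (hPK 0)
  obtain ⟨m, hm0, hm⟩ := h1
  obtain ⟨i, hi⟩ : ∃ i, m i ≠ 0 := by
    by_contra hcon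
    push Not at hcon
    exact hm0 (Finsupp.ext hcon)
  -- the derivative is not small
  have h2 : MvPolynomial.eval Y (MvPolynomial.pderiv i P) ∉ Id S τ := by
    intro hc
    have h3 := mv_small0 n A Y (MvPolynomial.pderiv i P) one_pos le_rfl (Rl_iff_Rt.mp hY) (pd_PK hPK i)
      (by linarith) hc (m - Finsupp.single i 1)
    have h4 : m - Finsupp.single i 1 + Finsupp.single i 1 = m := by
      apply tsub_add_cancel_of_le
      rw [Finsupp.single_le_iff]
      omega
    rw [MvPolynomial.coeff_pderiv, h4] at h3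
    apply hm
    have h5 : (((m - Finsupp.single i 1 : Fin n →₀ ℕ) i : ℕ) : QS S) + 1 = ((m i : ℕ) : QS S) := by
      rw [Finsupp.tsub_apply, Finsupp.single_eq_same]
      have h6 : m i - 1 + 1 = m i := by omega
      calc ((m i - 1 : ℕ) : QS S) + 1 = ((m i - 1 + 1 : ℕ) : QS S) := by push_cast; ring
        _ = _ := by rw [h6]
    rw [h5, mul_comm] at h3
    exact mem_Id_of_unit_mul (isUnit_nat hi) h3
  obtain ⟨E, hE, u, hu⟩ := exists_event hτ0.le (by linarith) h2
  refine ⟨E, hE, ?_⟩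
  have h3 := leaf_full (S := S.rest E) (A := restL E hE A) (hY.rest E hE) (rest_PK E hE hPK) (i := i) (u := u)
    (τ := τ) (a := 2 * τ) hτ0.le (by linarith) (by linarith) (by
      rw [MvPolynomial.pderiv_map, ← eval_hom]
      exact hu)
  rw [← eval_hom, ← hzP, QS.rest_dg] at h3
  linarith

end

end Pool.Agent.Helper95.RIG
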