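import Pool.Agent.Helper95.RIG.St
import Pool.Agent.Helper95.RIG.Scal

/-! RIG (A): every vertical structure contains the box. -/

namespace Pool.Agent.Helper95.RIG

open Finset Filter Topology Pool.Agent.Helper69.RK Pool.Agent.Helper31.EC

noncomputable section

open Sp QS

/-- the box is not known below a level, or it is known completely -/
theorem exists_last {S : Sp} {N : ℕ} {v : VS S N} (hv : v.Ax) {V : S.L} (hPV : v.P ≤ V) (hn : ¬ v.be 1 ≤ V) :
    ∃ s : ℝ, 0 ≤ s ∧ s < 1 ∧ v.be s ≤ V ∧ ∀ s', s < s' → s' ≤ 1 → ¬ v.be s' ≤ V := by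
  set Z : Set ℝ := {s | 0 ≤ s ∧ s ≤ 1 ∧ v.be s ≤ V} with hZ
  have h0 : (0 : ℝ) ∈ Z := ⟨le_rfl, zero_le_one, hv.zero.trans hPV⟩
  have hb : BddAbove Z := ⟨1, fun s hs => hs.2.1⟩
  set s := sSup Z with hs
  have hs0 : 0 ≤ s := le_csSup hb h0
  have hs1 : s ≤ 1 := csSup_le ⟨0, h0⟩ fun x hx => hx.2.1
  have hsV : v.be s ≤ V := by
    obtain ⟨C, hC⟩ := hv.cont
    have h1 : ∀ ε : ℝ, 0 < ε → h (v.be s) V ≤ max C 0 * ε := by
      intro ε hε
      obtain ⟨x, hx, hxs⟩ := exists_lt_of_lt_csSup ⟨0, h0⟩ (show s - ε < sSup Z by linarith)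
      have hxs' : x ≤ s := le_csSup hb hx
      have h2 := hC x s hx.1 hxs' hs1
      have h3 : h (v.be s) V ≤ h (v.be s) (v.be x ⊔ v.P) := h_anti (sup_le hx.2.2 hPV)
      calc h (v.be s) V ≤ C * (s - x) := h3.trans h2
        _ ≤ max C 0 * (s - x) := mul_le_mul_of_nonneg_right (le_max_left _ _) (by linarith)
        _ ≤ max C 0 * ε := mul_le_mul_of_nonneg_left (by linarith) (le_max_right _ _)
    rw [← h_le_zero_iff]
    by_contra hcon
    push Not at hcon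
    have h2 := h1 (h (v.be s) V / (2 * (max C 0 + 1))) (by positivity)
    have h3 : max C 0 * (h (v.be s) V / (2 * (max C 0 + 1))) ≤ h (v.be s) V / 2 := by
      have h4 : 0 ≤ max C 0 := le_max_right _ _
      rw [mul_div_assoc', div_le_div_iff₀ (by positivity) (by norm_num)]
      nlinarith
    linarith
  refine ⟨s, hs0, lt_of_le_of_ne hs1 (fun hc => hn (by rw [← hc]; exact hsV)), hsV, fun s' h1 h2 h3 => ?_⟩
  have h4 : s' ≤ s := le_csSup hb ⟨hs0.trans h1.le, h2, h3⟩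
  linarith

/-- no exact vertical structure misses the small boxes -/
theorem rig_aux {N : ℕ} {C : ∀ S : Sp, VS S N → Prop} (hC : RCls N C) {S : Sp} {v : VS S N} (hv : C S v)
    {V : S.L} (hPV : v.P ≤ V) (hV : PLeaf V v.R) : ∃ s : ℝ, 0 < s ∧ s ≤ 1 ∧ v.be s ≤ V := by
  obtain ⟨th, hth, hQ⟩ := hC.lemQ S v hv V hPV hV
  set τ : ℝ := min (th / 6) (1 / 3) with hτ
  have hτ0 : 0 < τ := lt_min (by positivity) (by norm_num)
  have hτ1 : τ ≤ 1 / 3 := min_le_right _ _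
  have hτ2 : τ ≤ th / 6 := min_le_left _ _
  refine ⟨τ, hτ0, by linarith, ?_⟩
  refine ((hC.ax S v hv).dig τ hτ0.le (by linarith)).trans (sup_le hPV ?_)
  rw [vd_le]
  intro j
  by_contra hj
  obtain ⟨E, hE, hh⟩ := dichotomy (hV.comp fun _ : Unit => j) hτ0 (by linarith) hj
  have h1 := hQ E hE j
  have h2 : h (dg ((v.rest E hE).R j) 1) (restL E hE V) = h (restL E hE (dg (v.R j) 1)) (restL E hE V) := by
    show h (dg (QS.rest E hE (v.R j)) 1) _ = _
    rw [QS.rest_dg]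
  rw [h2] at h1
  linarith

/-- RIG (A) -/
theorem rigA : ST_RIGA := by
  intro N C hC S v hv V hPV hV
  by_contra hn
  -- an exact leaf
  have h0 : 0 < h (v.be 1) V := lt_of_not_ge fun hc => hn (h_le_zero_iff.mp hc)
  obtain ⟨W, p, A', h1, h2, h3⟩ := hV (h (v.be 1) V / 2) (by positivity)
  set v1 := v.pull p with hv1
  have hv1C : C W v1 := hC.pull S W p v hv
  have hPA : v1.P ≤ A' := (p.map_mono hPV).trans h1
  have hnA : ¬ v1.be 1 ≤ A' := by
    intro hc
    have e1 := h2 (v.be 1)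
    have hc' : p.map (v.be 1) ≤ A' ⊔ p.map V := hc.trans le_sup_left
    rw [I_eq', p.h_map, h_zero hc'] at e1
    linarith
  obtain ⟨s, hs0, hs1, hsA, hsn⟩ := exists_last (hC.ax W v1 hv1C) hPA hnA
  rcases hs0.lt_or_eq with hs | hs
  · -- zoom
    obtain ⟨S', v', up, hC', hZ⟩ := hC.zoom W v1 s hv1C hs hs1
    have hP' : v'.P ≤ up A' := hZ.P.trans (hZ.mono _ _ hPA)
    obtain ⟨s', t1, t2, t3⟩ := rig_aux hC hC' hP' (hZ.leaf A' hPA hsA h3)
    have e1 : up (v1.be (s + (1 - s) * s')) ≤ up A' := (hZ.be s' t1.le t2).trans (sup_le t3 hP')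
    have e2 := hZ.refl _ _ e1
    rw [sup_eq_left.mpr hsA] at e2
    refine hsn _ ?_ ?_ e2
    · nlinarith
    · nlinarith
  · subst hs
    obtain ⟨s', t1, t2, t3⟩ := rig_aux hC hv1C hPA h3
    exact hsn s' t1 t2 t3

end

end Pool.Agent.Helper95.RIG
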