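import Pool.Agent.Helper95.RIG.Zl
import Pool.Agent.Helper13.AM.Blk

/-! RIG: [ZPL] the vertical systems of a class of corners form a class for RIG (A). -/

set_option autoImplicit false

namespace Pool.Agent.Helper95.RIG

open Finset Filter Topology Pool.Agent.Helper69.RK Pool.Agent.Helper31.EC
open Pool.Agent.Helper57.TA (sc)
open Pool.Agent.Helper13.AM (cQ cQ_dg cQ_vd cQ_eq CD Cls AD ST_ZPL)
open Pool.Agent.Helper82.TP (Lit)

noncomputable section

open Sp QS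

variable {S : Sp} {d N r : ℕ}

theorem VS.ext' {v v' : VS S N} (h1 : v.P = v'.P) (h2 : v.R = v'.R) (h3 : v.be = v'.be) : v = v' := by
  cases v
  cases v'
  simp only at h1 h2 h3
  subst h1 h2 h3
  rfl

theorem toVS_pull (c : CD S d N r) (w : Fin N → ℝ) (z : Fin N) {T : Sp} (p : Pj T S) :
    (c.toVS w z).pull p = (c.pull p).toVS w z := by
  apply VS.ext'
  · exact (vd_qs p c.q 1).symm
  · rfl
  · funext s
    exact p.map_io (c.VK (s / w z))

theorem toVS_rest (c : CD S d N r) (w : Fin N → ℝ) (z : Fin N) (hb : ∀ s, Bdd (c.VK s))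
    (E : ∀ k, (S.F k).Ω → Prop) (hE : 0 < ul (S.pr E)) :
    (c.toVS w z).rest E hE = (c.rest E hE).toVS w z := by
  apply VS.ext'
  · exact (QS.rest_vd E hE c.q 1).symm
  · rfl
  · funext s
    exact restL_io E hE (hb (s / w z))

/-- the axioms of helper95's vertical system -/
theorem toVS_ax {c : CD S d N r} {w : Fin N → ℝ} {z : Fin N} {ρ : ℝ} (hc : c.Ax w z ρ) : (c.toVS w z).Ax := by
  have hw : 0 < w z := zero_lt_one.trans (hc.w1 z)
  have hsc : ∀ s : ℝ, w z * (s / w z) = s := fun s => by field_simp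
  have h0 : c.K 0 = ⊥ := by
    apply le_bot_iff.mp
    rw [← h_le_zero_iff, h_bot, hc.num.hbe 0 le_rfl (by simp), mul_zero]
  have hA : 0 ≤ ((d : ℝ) + 1 + (∑ j ∈ univ.erase z, w j) + (1 - ρ) * w z) := by
    have h1 : 0 ≤ ∑ j ∈ univ.erase z, w j := Finset.sum_nonneg fun j _ => (zero_lt_one.trans (hc.w1 j)).le
    have h2 : 0 ≤ (1 - ρ) * w z := mul_nonneg (by linarith [hc.rho1]) hw.le
    positivity
  refine ⟨?_, ?_, ?_, ?_⟩
  · show c.K (0 / w z) ≤ c.P
    rw [zero_div, h0]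
    exact bot_le
  · intro s s' h1 h2 h3
    show c.K (s / w z) ≤ c.K (s' / w z) ⊔ c.P
    exact (hc.bx.mono _ _ (div_nonneg h1 hw.le) (div_le_div_of_nonneg_right h2 hw.le)
      (by rw [hsc]; exact h3)).trans le_sup_left
  · refine ⟨((d : ℝ) + 1 + (∑ j ∈ univ.erase z, w j) + (1 - ρ) * w z) / w z, fun s s' h1 h2 h3 => ?_⟩
    show h (c.K (s' / w z)) (c.K (s / w z) ⊔ c.P) ≤ _
    have hm := hc.bx.mono _ _ (div_nonneg h1 hw.le) (div_le_div_of_nonneg_right h2 hw.le) (by rw [hsc]; exact h3)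
    have e1 := hc.num.hbe (s' / w z) (div_nonneg (h1.trans h2) hw.le) (by rw [hsc]; exact h3)
    have e2 := hc.num.hbe (s / w z) (div_nonneg h1 hw.le) (by rw [hsc]; exact h2.trans h3)
    have e3 : h (c.K (s' / w z)) (c.K (s / w z)) = H (c.K (s' / w z)) - H (c.K (s / w z)) := by
      unfold h
      rw [sup_eq_left.mpr hm]
    calc h (c.K (s' / w z)) (c.K (s / w z) ⊔ c.P) ≤ h (c.K (s' / w z)) (c.K (s / w z)) := h_anti le_sup_left
      _ = _ := by
        rw [e3, e1, e2]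
        ring
  · intro s h1 h2
    show c.K (s / w z) ≤ c.P ⊔ vd c.R s
    have e1 := hc.bx.pt (s / w z) (div_nonneg h1 hw.le) (by rw [hsc]; exact h2)
    rw [hsc] at e1
    exact e1.trans (sup_le_sup_right (vd_mono c.q h2) _)

/-- the zoom of a corner is a zoom of its vertical system -/
theorem toVS_zoom {c : CD S d N r} {w : Fin N → ℝ} {z : Fin N} {ρ : ℝ} (hc : c.Ax w z ρ) {s : ℝ} (hs0 : 0 < s)
    (hs1 : s < 1) {Z : ∀ k, Setoid (S.F k).Ω} (hZ : ∀ k, Z k = Setoid.ker (c.VK (s / w z) k))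
    (he : 0 < 1 - s) (h1 : 1 - s ≤ 1) {c' : CD (S.chg Z (1 - s) he) d N r}
    (h : c.ZR w z (s / w z) (1 - s) he h1 Z c') (hb' : ∀ s', Bdd (c'.VK s')) :
    VS.Zm (c.toVS w z) s (c'.toVS w z) (chgL Z (1 - s) he) := by
  have hw : 0 < w z := zero_lt_one.trans (hc.w1 z)
  have hsc : ∀ s : ℝ, w z * (s / w z) = s := fun s => by field_simp
  have hσ0 : 0 ≤ s / w z := div_nonneg hs0.le hw.le
  have hσ1 : s / w z ≤ s := by
    rw [div_le_iff₀ hw]
    nlinarith [hc.w1 z]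
  obtain ⟨V, hV⟩ : ∃ V : S.Inf, V = (hc.bx.bdd (s / w z)).toInf := ⟨_, rfl⟩
  have hZV : Z = V.1 := by
    rw [hV]
    funext k
    exact hZ k
  have hK : cl V = c.K (s / w z) := by
    rw [hV]
    exact (io_eq _).symm
  subst hZV
  have hq0 : ∀ i, dg (c.q i - c.q0 (s / w z) i) 1 ≤ vd c.q 1 ⊔ cl V := by
    intro i
    have e1 : c.q i - c.q0 (s / w z) i ∈ Kn S 1 le_rfl (vd c.q 1 ⊔ cl V) := by
      apply Subring.sub_mem
      · exact (dg_le_vd c.q 1 i).trans le_sup_left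
      · refine ((hc.bx.litq (s / w z) i).dg_le (hc.bx.bdd _) le_rfl).trans ?_
        rw [hK]
        exact le_sup_right
    exact e1
  have hu1 : s / w z ≤ 1 := hσ1.trans hs1.le
  refine ⟨fun x y hxy => chgL_mono _ _ _ hxy, fun x y hxy => ?_, ?_, ?_, ?_⟩
  · rw [chgL_le_inf, hK] at hxy
    exact hxy
  · show vd c'.q 1 ≤ chgL V.1 (1 - s) he (vd c.q 1)
    rw [vd_le]
    intro i
    obtain ⟨X, hX1, hX2⟩ := h.q i
    rw [hX2, cQ_dg V.1 (1 - s) he h1 X le_rfl, mul_one, chgL_le_inf]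
    have e2 := dg_div_le hσ0 hu1 hX1 le_rfl
    exact ((dg_mono X (by linarith)).trans e2).trans (hq0 i)
  · intro s' h2 h3
    show chgL V.1 (1 - s) he (c.K ((s + (1 - s) * s') / w z)) ≤ c'.K (s' / w z) ⊔ c'.P
    refine le_trans ?_ le_sup_left
    have e0 : (s + (1 - s) * s') / w z = s / w z + (1 - s) * (s' / w z) := by
      rw [add_div, mul_div_assoc]
    have e1 := h.VK (s' / w z) (div_nonneg h2 hw.le) (by
      rw [← e0, hsc]
      nlinarith)
    rw [e0]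
    unfold CD.K
    rw [chgL_io V.1 (1 - s) he (hc.bx.bdd _)]
    exact io_le_of_fun (hb' _) (Eventually.of_forall fun k ω ω' a b d hω => (e1 k ω ω' a b d).mp hω)
  · intro A hPA hsA hA
    have hsA' : cl V ≤ A := by
      rw [hK]
      exact hsA
    have hσ : w z * (s / w z) ≤ 1 := by rw [hsc]; exact hs1.le
    have hx : ∀ i, dg (c.q i - c.q0 (s / w z) i) 1 ≤ A := fun i => (hq0 i).trans (sup_le hPA hsA')
    have hFK : ∀ j, c.F (s / w z) j ∈ PK A := by
      intro j m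
      refine ((hc.bx.litF (s / w z) j m).dg_le (hc.bx.bdd _) le_rfl).trans ?_
      exact hsA
    have hlow : ∀ j m, (c.F (s / w z) j).coeff m ≠ 0 → ∀ l, m (Sum.inr l) ≠ 0 → w l < w j := by
      intro j m hm l hl
      refine lt_of_le_of_lt ?_ (hc.bx.deg (s / w z) j m hm)
      unfold Helper57.TA.wgt
      have e1 : ∀ a : Fin (d + 1) ⊕ Fin N, 0 ≤ (m a : ℝ) * (Sum.elim (fun _ => 1) w : Fin (d + 1) ⊕ Fin N → ℝ) a := by
        intro a
        apply mul_nonneg (Nat.cast_nonneg _)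
        rcases a with a | a
        · exact zero_le_one
        · exact (zero_lt_one.trans (hc.w1 a)).le
      refine le_trans ?_ (Finset.single_le_sum (fun a _ => e1 a) (mem_univ (Sum.inr l)))
      rw [Sum.elim_inr]
      have e2 : (1 : ℝ) ≤ (m (Sum.inr l) : ℝ) := by exact_mod_cast Nat.one_le_iff_ne_zero.mpr hl
      nlinarith [hc.w1 l]
    have hγ : PLeaf A (c.γ (s / w z)) := PLeaf.disp w hx hFK hlow (hc.bx.fR (s / w z) hσ0 hσ) hA
    choose Y hY1 hY2 using h.R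
    have e3 := PLeaf.zoom V he h1 hsA' (la := fun j => w j * (s / w z))
      (fun j => mul_nonneg (zero_lt_one.trans (hc.w1 j)).le hσ0) (fun j => by
        have e4 := mul_le_mul_of_nonneg_right (hc.wz j) hσ0
        rw [hsc] at e4
        linarith) hY1 hγ
    have e5 : (c'.toVS w z).R = fun j => cQ V.1 (1 - s) he h1 (Y j) := funext fun j => hY2 j
    rw [e5]
    exact e3

/-- [ZPL] -/
theorem st_zpl : ST_ZPL := by
  intro d N r w z ρ C hC hAD
  refine ⟨?_, ?_, ?_, ?_, ?_⟩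
  · rintro S v ⟨c, hc, rfl⟩
    exact toVS_ax (hC.ax S c hc)
  · rintro S T p v ⟨c, hc, rfl⟩
    exact ⟨c.pull p, hC.pull S c hc T p, toVS_pull c w z p⟩
  · rintro S v E hE ⟨c, hc, rfl⟩
    exact ⟨c.rest E hE, hC.rest S c hc E hE, toVS_rest c w z (hC.ax S c hc).bx.bdd E hE⟩
  · rintro S v s ⟨c, hc, rfl⟩ hs0 hs1
    have hA := hC.ax S c hc
    have hw : 0 < w z := zero_lt_one.trans (hA.w1 z)
    have he : 0 < 1 - s := by linarith
    have h1 : 1 - s ≤ 1 := by linarith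
    obtain ⟨Z, hZ⟩ : ∃ Z : ∀ k, Setoid (S.F k).Ω, Z = fun k => Setoid.ker (c.VK (s / w z) k) := ⟨_, rfl⟩
    obtain ⟨c', h2, h3⟩ := hC.zoom S c hc (s / w z) (1 - s) he h1 (div_nonneg hs0.le hw.le) (by
      rw [mul_div_cancel₀ _ hw.ne']
      linarith) Z (fun k => by rw [hZ])
    exact ⟨_, _, _, ⟨c', h3, rfl⟩, toVS_zoom hA hs0 hs1 (fun k => by rw [hZ]) he h1 h2 (hC.ax _ c' h3).bx.bdd⟩
  · rintro S v ⟨c, hc, rfl⟩ W hPW hW
    obtain ⟨th, h1, h2⟩ := hAD S c hc W hPW hW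
    refine ⟨th, h1, fun E hE j => ?_⟩
    have h3 := h2 E hE j
    show h (dg (QS.rest E hE (c.R j)) 1) _ ≤ _
    rw [QS.rest_dg]
    exact h3

end

end Pool.Agent.Helper95.RIG
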