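import Pool.Agent.Helper31.EC.Uns

/-! Exact entropy calculus: copies over finitely many functions and finitely many informations (literal copies). -/

namespace Pool.Agent.Helper95.RIG

open Finset Filter Topology Pool.Agent.Helper69.RK Pool.Agent.Helper31.EC

noncomputable section

open Sp

variable {S : Sp}

theorem exists_io (B : S.L) : ∃ (α : ℕ → Type) (Bc : ∀ k, (S.F k).Ω → α k), Bdd Bc ∧ io Bc = B := by
  induction B using Sp.cl_ind with | _ A
  have e1 : (fun k => Setoid.ker (Quotient.mk (A.1 k))) = A.1 := by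
    funext k
    exact Setoid.ker_mk_eq (A.1 k)
  have hb : Bdd (fun k => Quotient.mk (A.1 k)) := by
    unfold Bdd
    rw [e1]
    exact A.2
  refine ⟨fun k => Quotient (A.1 k), fun k => Quotient.mk (A.1 k), hb, ?_⟩
  rw [io_eq hb]
  congr 1
  exact Subtype.ext e1

theorem bdd_unit : Bdd (S := S) (fun _ _ => ()) := by
  have h := VB_tr (S := S)
  refine VB.mono h (Eventually.of_forall fun k ω ω' _ _ _ _ => ?_)
  exact (Setoid.ker_def).mpr rfl

theorem io_unit : io (S := S) (fun _ _ => ()) = ⊥ := by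
  rw [io_eq bdd_unit, ← cl_bot]
  congr 1
  apply Subtype.ext
  funext k
  show Setoid.ker _ = ⊤
  ext ω ω'
  exact ⟨fun _ => trivial, fun _ => (Setoid.ker_def).mpr rfl⟩

/-- finitely many bounded variables as functions of one bounded variable -/
theorem exists_common : ∀ (M : ℕ) (α : Fin M → ℕ → Type) (X : ∀ i k, (S.F k).Ω → α i k), (∀ i, Bdd (X i)) →
    ∃ (γ : ℕ → Type) (V : ∀ k, (S.F k).Ω → γ k), Bdd V ∧
      (∀ i, ∃ g : ∀ k, γ k → α i k, ∀ k ω, X i k ω = g k (V k ω)) ∧ io V = univ.sup fun i => io (X i) := by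
  intro M
  induction M with
  | zero =>
    intro α X _
    exact ⟨fun _ => Unit, fun _ _ => (), bdd_unit, fun i => i.elim0, by rw [io_unit]; simp⟩
  | succ M ih =>
    intro α X hX
    obtain ⟨γ, V, hV, hg, hs⟩ := ih (fun i => α i.succ) (fun i => X i.succ) (fun i => hX i.succ)
    refine ⟨fun k => α 0 k × γ k, fun k ω => (X 0 k ω, V k ω), (hX 0).pair hV, ?_, ?_⟩
    · intro i
      induction i using Fin.cases with
      | zero => exact ⟨fun k w => w.1, fun k ω => rfl⟩
      | succ i =>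
        obtain ⟨g, hg⟩ := hg i
        exact ⟨fun k w => g k w.2, hg⟩
    · rw [io_pair (hX 0) hV, hs]
      apply le_antisymm
      · refine sup_le (le_sup (f := fun i => io (X i)) (mem_univ 0)) (Finset.sup_le fun i _ => ?_)
        exact le_sup (f := fun i => io (X i)) (mem_univ i.succ)
      · refine Finset.sup_le fun i _ => ?_
        induction i using Fin.cases with
        | zero => exact le_sup_left
        | succ i =>
          exact (le_sup (f := fun i : Fin M => io (X i.succ)) (mem_univ i)).trans le_sup_right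

theorem io_congr_supp {T : Sp} {β : ℕ → Type} {X Y : ∀ k, (T.F k).Ω → β k} (hX : Bdd X) (hY : Bdd Y)
    (h : ∀ k w, (T.F k).μ w ≠ 0 → X k w = Y k w) : io X = io Y := by
  apply le_antisymm
  · apply io_le_of_fun hY
    refine Eventually.of_forall fun k w w' hw hw' _ e => ?_
    rw [h k w hw, h k w' hw', e]
  · apply io_le_of_fun hX
    refine Eventually.of_forall fun k w w' hw hw' _ e => ?_
    rw [← h k w hw, ← h k w' hw', e]

/-- `W` and `T` over `S`, glued along the variable `V` of `S` (and the base) -/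
def jn {W T S : Sp} (p : Pj W S) (q : Pj T S) {α : ℕ → Type} (V : ∀ k, (S.F k).Ω → α k) : AmD W T where
  α := fun k => α k × Quotient (S.F k).Z
  f := fun k ω => (V k (p.π k ω), Quotient.mk (S.F k).Z (p.π k ω))
  g := fun k ω => (V k (q.π k ω), Quotient.mk (S.F k).Z (q.π k ω))
  law := by
    intro k a
    have h1 := ms_push (p.π k) (W.F k).μ (fun ω => (V k ω, Quotient.mk (S.F k).Z ω)) a
    have h2 := ms_push (q.π k) (T.F k).μ (fun ω => (V k ω, Quotient.mk (S.F k).Z ω)) a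
    rw [p.law k] at h1
    rw [q.law k] at h2
    exact h1.trans h2.symm
  Zr := fun k => Setoid.ker Prod.snd
  hZ1 := by
    intro k ω ω' h h'
    rw [p.hZ k ω ω' h h']
    exact (Quotient.eq (r := (S.F k).Z)).symm
  hZ2 := by
    intro k ω ω' h h'
    rw [q.hZ k ω ω' h h']
    exact (Quotient.eq (r := (S.F k).Z)).symm
  hn := fun k => (p.hn k).trans (q.hn k).symm

section jn

variable {W T S : Sp} (p : Pj W S) (q : Pj T S) {α : ℕ → Type} (V : ∀ k, (S.F k).Ω → α k)

theorem jn_io1 (hV : Bdd V) : io (jn p q V).f = p.map (io V) := by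
  rw [← Pj.io_with_base hV, p.map_io]
  rfl

theorem jn_io2 (hV : Bdd V) : io (jn p q V).g = q.map (io V) := by
  rw [← Pj.io_with_base hV, q.map_io]
  rfl

theorem jn_bdd1 (hV : Bdd V) : Bdd (jn p q V).f :=
  (p.bdd_iff (fun k ω => (V k ω, Quotient.mk (S.F k).Z ω))).mpr (Pj.bdd_with_base hV)

theorem jn_bdd2 (hV : Bdd V) : Bdd (jn p q V).g :=
  (q.bdd_iff (fun k ω => (V k ω, Quotient.mk (S.F k).Z ω))).mpr (Pj.bdd_with_base hV)

theorem jn_common (hV : Bdd V) : (jn p q V).p1.map (p.map (io V)) = (jn p q V).p2.map (q.map (io V)) := by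
  rw [← jn_io1 p q V hV, ← jn_io2 p q V hV]
  exact (jn p q V).common (jn_bdd2 p q V hV)

theorem jn_indep (hV : Bdd V) (x : W.L) (y : T.L) :
    I ((jn p q V).p1.map x) ((jn p q V).p2.map y) ((jn p q V).p1.map (p.map (io V))) = 0 := by
  rw [← jn_io1 p q V hV]
  exact (jn p q V).indep (jn_bdd1 p q V hV) x y

theorem jn_supp (k : ℕ) (w : ((jn p q V).sp.F k).Ω) (h : ((jn p q V).sp.F k).μ w ≠ 0) :
    V k (p.π k w.1) = V k (q.π k w.2) := by
  have h1 := ((jn p q V).supp k w h).1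
  have h2 : (V k (p.π k w.1), Quotient.mk (S.F k).Z (p.π k w.1)) =
      (V k (q.π k w.2), Quotient.mk (S.F k).Z (q.π k w.2)) := h1
  rw [Prod.mk.injEq] at h2
  exact h2.1

/-- literal functions of the common variable are common -/
theorem jn_fun {β : ℕ → Type} {X : ∀ k, (S.F k).Ω → β k} (hX : Bdd X) (g : ∀ k, α k → β k)
    (hg : ∀ k ω, X k ω = g k (V k ω)) :
    (jn p q V).p1.map (p.map (io X)) = (jn p q V).p2.map (q.map (io X)) := by
  rw [p.map_io, q.map_io, (jn p q V).p1.map_io, (jn p q V).p2.map_io]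
  apply io_congr_supp
  · exact ((jn p q V).p1.bdd_iff (fun k ω => X k (p.π k ω))).mpr ((p.bdd_iff X).mpr hX)
  · exact ((jn p q V).p2.bdd_iff (fun k ω => X k (q.π k ω))).mpr ((q.bdd_iff X).mpr hX)
  · intro k w hw
    rw [hg, hg]
    exact congrArg (g k) (jn_supp p q V k w hw)

/-- functions of the common variable up to the precision of the space are common -/
theorem jn_qs (f : QS S)
    (hf : ∀ k ω ω', V k ω = V k ω' → |TR.ev (QS.rep f) k ω - TR.ev (QS.rep f) k ω'| ≤ S.dl 1 k) :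
    (jn p q V).p1.qs (p.qs f) = (jn p q V).p2.qs (q.qs f) := by
  have e1 : QS.mk ((jn p q V).p1.tr (p.tr (QS.rep f))) = QS.mk ((jn p q V).p2.tr (q.tr (QS.rep f))) := by
    rw [QS.mk_eq]
    refine ⟨fun _ _ => True, fun _ => 1, Sp.Typ_true, Sp.Sub_const _ zero_le_one,
      Eventually.of_forall fun k w hw _ => ?_⟩
    have h1 := jn_supp p q V k w hw
    have h2 := hf k (p.π k w.1) (q.π k w.2) h1
    have h3 : (jn p q V).sp.dl 1 k = S.dl 1 k := by
      unfold Sp.dl
      rw [show ((jn p q V).sp.F k).n = (W.F k).n from rfl, p.hn k]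
    rw [one_mul, h3]
    exact h2
  have e2 : (jn p q V).p1.qs (p.qs (QS.mk (QS.rep f))) = (jn p q V).p2.qs (q.qs (QS.mk (QS.rep f))) := e1
  rwa [QS.mk_rep] at e2

end jn

theorem exists_cell {N : ℕ} (f : Fin N → QS S) :
    ∃ V0 : ∀ k, (S.F k).Ω → (Fin N → ℤ), Bdd V0 ∧ io V0 = QS.vd f 1 ∧
      ∀ i k ω ω', V0 k ω = V0 k ω' → |TR.ev (QS.rep (f i)) k ω - TR.ev (QS.rep (f i)) k ω'| ≤ S.dl 1 k := by
  classical
  set g : Fin N → TR S := fun i => QS.rep (f i) with hg
  have hgf : ∀ i, QS.mk (g i) = f i := fun i => QS.mk_rep (f i)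
  refine ⟨(TR.vec g).cellv 1, (TR.vec g).bdd 1, ?_, fun i k ω ω' h => (TR.vec g).cellv_close 1 k ω ω' h i⟩
  show (TR.vec g).dg 1 = _
  rw [TR.vec_dg_eq]
  unfold QS.vd
  congr 1
  funext i
  rw [← hgf i, QS.dg_mk _ le_rfl]

/-- `W` and `T` over `S`, glued along finitely many functions and informations of `S` -/
theorem exists_glueF {W T S : Sp} (p : Pj W S) (q : Pj T S) {N M : ℕ} (f : Fin N → QS S) (A : Fin M → S.L) :
    ∃ (D : Sp) (p1 : Pj D W) (p2 : Pj D T), (∀ i, p1.qs (p.qs (f i)) = p2.qs (q.qs (f i))) ∧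
      (∀ i, p1.map (p.map (A i)) = p2.map (q.map (A i))) ∧
      (∀ x y, I (p1.map x) (p2.map y) (p2.map (q.map (QS.vd f 1 ⊔ univ.sup A))) = 0) := by
  classical
  obtain ⟨V0, hV0, hV0v, hV0f⟩ := exists_cell f
  choose α X hX hXA using fun i => exists_io (A i)
  obtain ⟨γ, V1, hV1, hV1g, hV1s⟩ := exists_common M α X hX
  have hVex : ∃ (δ : ℕ → Type) (V : ∀ k, (S.F k).Ω → δ k), Bdd V ∧ io V = QS.vd f 1 ⊔ univ.sup A ∧
      (∃ g : ∀ k, δ k → (Fin N → ℤ), ∀ k ω, V0 k ω = g k (V k ω)) ∧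
      (∀ i, ∃ g : ∀ k, δ k → α i k, ∀ k ω, X i k ω = g k (V k ω)) := by
    refine ⟨fun k => (Fin N → ℤ) × γ k, fun k ω => (V0 k ω, V1 k ω), hV0.pair hV1, ?_, ?_, ?_⟩
    · rw [io_pair hV0 hV1, hV0v, hV1s]
      congr 2
      funext i
      exact hXA i
    · exact ⟨fun k w => w.1, fun k ω => rfl⟩
    · intro i
      obtain ⟨e, he⟩ := hV1g i
      exact ⟨fun k w => e k w.2, fun k ω => he k ω⟩
  obtain ⟨δ, V, hV, hVio, ⟨g0, hg0⟩, hVg⟩ := hVex
  have hcomm : (jn p q V).p1.map (p.map (QS.vd f 1 ⊔ univ.sup A)) =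
      (jn p q V).p2.map (q.map (QS.vd f 1 ⊔ univ.sup A)) := by
    rw [← hVio]; exact jn_common p q V hV
  refine ⟨(jn p q V).sp, (jn p q V).p1, (jn p q V).p2, fun i => ?_, fun i => ?_, fun x y => ?_⟩
  · apply jn_qs
    intro k ω ω' h
    apply hV0f i k ω ω'
    rw [hg0, hg0, h]
  · rw [← hXA i]
    obtain ⟨e, he⟩ := hVg i
    exact jn_fun p q V (hX i) e he
  · rw [← hcomm, ← hVio]
    exact jn_indep p q V hV x y

/-- the same for functions with a finite index type -/
theorem exists_glue {W T S : Sp} (p : Pj W S) (q : Pj T S) {ι : Type} [Fintype ι] {M : ℕ} (f : ι → QS S)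
    (A : Fin M → S.L) :
    ∃ (D : Sp) (p1 : Pj D W) (p2 : Pj D T), (∀ i, p1.qs (p.qs (f i)) = p2.qs (q.qs (f i))) ∧
      (∀ i, p1.map (p.map (A i)) = p2.map (q.map (A i))) ∧
      (∀ x y, I (p1.map x) (p2.map y) (p2.map (q.map (QS.vd f 1 ⊔ univ.sup A))) = 0) := by
  classical
  set e := (Fintype.equivFin ι).symm with he
  obtain ⟨D, p1, p2, h1, h2, h3⟩ := exists_glueF p q (f ∘ e) A
  refine ⟨D, p1, p2, fun i => ?_, h2, fun x y => ?_⟩
  · have h4 := h1 (e.symm i)
    simpa using h4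
  · have h5 := h3 x y
    rwa [QS.vd_equiv e f 1] at h5

end

end Pool.Agent.Helper95.RIG
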