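import Pool.Agent.Helper95.RIG.Gl

/-! Exact entropy calculus: polynomial leaves `PLeaf A Q`, approximate (= smooth) leaves `ALeaf A Q`, and their
closure properties. -/

namespace Pool.Agent.Helper95.RIG

open Finset Filter Topology Pool.Agent.Helper69.RK Pool.Agent.Helper31.EC

noncomputable section

open Sp QS

variable {S : Sp} {ι κ : Type}

/-- exact polynomial leaf: `Q` is a polynomial map, with coefficients known to `A`, of parameters which are real
over `A` -/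
def PLeaf (A : S.L) (Q : ι → QS S) : Prop :=
  ∃ (n : ℕ) (Y : Fin n → QS S) (Φ : ι → MvPolynomial (Fin n) (QS S)),
    Rl Y A ∧ (∀ j, Φ j ∈ PK A) ∧ ∀ j, Q j = MvPolynomial.eval Y (Φ j)

/-- approximate leaf: for every `ε` there are an extension and a finer information `A'`, which adds at most `ε` to the
knowledge about `S`, over which `Q` is an exact polynomial leaf -/
def ALeaf (A : S.L) (Q : ι → QS S) : Prop :=
  ∀ ε : ℝ, 0 < ε → ∃ (W : Sp) (p : Pj W S) (A' : W.L), p.map A ≤ A' ∧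
    (∀ y : S.L, I A' (p.map y) (p.map A) ≤ ε) ∧ PLeaf A' (fun j => p.qs (Q j))

theorem PLeaf.pull {T : Sp} (p : Pj T S) {A : S.L} {Q : ι → QS S} (h : PLeaf A Q) :
    PLeaf (p.map A) (fun j => p.qs (Q j)) := by
  obtain ⟨n, Y, Φ, hY, hΦ, hQ⟩ := h
  refine ⟨n, fun i => p.qs (Y i), fun j => MvPolynomial.map p.qs (Φ j), hY.pull p, fun j => map_PK p (hΦ j),
    fun j => ?_⟩
  beta_reduce
  rw [hQ j, qs_eval]

/-- sub-families and repetitions -/
theorem PLeaf.comp {A : S.L} {Q : ι → QS S} (h : PLeaf A Q) (g : κ → ι) : PLeaf A (fun j => Q (g j)) := by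
  obtain ⟨n, Y, Φ, hY, hΦ, hQ⟩ := h
  exact ⟨n, Y, fun j => Φ (g j), hY, fun j => hΦ (g j), fun j => hQ (g j)⟩

/-- known points -/
theorem PLeaf.known {A : S.L} {Q : ι → QS S} (h : ∀ j, dg (Q j) 1 ≤ A) : PLeaf A Q := by
  refine ⟨0, Fin.elim0, fun j => MvPolynomial.C (Q j), ?_, fun j => C_mem (h j), fun j => by
    rw [MvPolynomial.eval_C]⟩
  unfold Rl vd
  simp [h_zero]

/-- polynomial images -/
theorem PLeaf.poly {A : S.L} {Q : ι → QS S} (h : PLeaf A Q) (F : κ → MvPolynomial ι (QS S))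
    (hF : ∀ j, F j ∈ PK A) : PLeaf A (fun j => MvPolynomial.eval Q (F j)) := by
  classical
  obtain ⟨n, Y, Φ, hY, hΦ, hQ⟩ := h
  refine ⟨n, Y, fun j => MvPolynomial.bind₁ Φ (F j), hY, fun j => ?_, fun j => ?_⟩
  · beta_reduce
    rw [MvPolynomial.bind₁, MvPolynomial.aeval_def, MvPolynomial.eval₂_eq]
    apply Subring.sum_mem
    intro m _
    apply Subring.mul_mem
    · exact C_mem (hF j m)
    · exact Subring.prod_mem _ fun i _ => Subring.pow_mem _ (hΦ i) _
  · have h1 : Q = fun i => MvPolynomial.eval Y (Φ i) := funext hQ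
    rw [h1]
    beta_reduce
    have h2 : ∀ P : MvPolynomial ι (QS S), MvPolynomial.eval (fun i => MvPolynomial.eval Y (Φ i)) P =
        MvPolynomial.eval Y (MvPolynomial.bind₁ Φ P) := by
      intro P
      have h3 : (MvPolynomial.eval Y).comp (MvPolynomial.bind₁ Φ : MvPolynomial ι (QS S) →+* _) =
          MvPolynomial.eval (fun i => MvPolynomial.eval Y (Φ i)) := by
        apply MvPolynomial.ringHom_ext
        · intro r
          simp
        · intro i
          simp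
      exact (RingHom.congr_fun h3 P).symm
    exact h2 _

/-- adding an information -/
theorem PLeaf.add {A B : S.L} {Q : ι → QS S} (h : PLeaf A Q) (hAB : A ≤ B) (hi : ∀ y : S.L, I B y A = 0) :
    PLeaf B Q := by
  obtain ⟨n, Y, Φ, hY, hΦ, hQ⟩ := h
  refine ⟨n, Y, Φ, ?_, fun j => PK_mono hAB (hΦ j), hQ⟩
  unfold Rl at hY ⊢
  have h1 := hi (vd Y 1)
  rw [I_zero_iff_h', sup_eq_left.mpr hAB] at h1
  rw [h1, hY]

/-- enlarging the family by polynomial images (with coefficients known to `A`) -/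
theorem PLeaf.sum {A : S.L} {Q : ι → QS S} {Q' : κ → QS S} (h : PLeaf A Q)
    (hQ' : ∀ j, ∃ F : MvPolynomial ι (QS S), F ∈ PK A ∧ Q' j = MvPolynomial.eval Q F) : PLeaf A Q' := by
  choose F hF hFQ using hQ'
  have h1 := h.poly F hF
  have h2 : (fun j => MvPolynomial.eval Q (F j)) = Q' := funext fun j => (hFQ j).symm
  rwa [h2] at h1

theorem ALeaf.of_PLeaf {A : S.L} {Q : ι → QS S} (h : PLeaf A Q) : ALeaf A Q := by
  intro ε hε
  refine ⟨S, Pj.id S, A, (Pj.id_map A).le, fun y => ?_, ?_⟩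
  · rw [Pj.id_map, Pj.id_map, I_zero_of_le_left le_rfl]
    exact hε.le
  · have h1 : (fun j => (Pj.id S).qs (Q j)) = Q := funext fun j => Pj.id_qs (Q j)
    rw [h1]
    exact h

theorem ALeaf.comp {A : S.L} {Q : ι → QS S} (h : ALeaf A Q) (g : κ → ι) : ALeaf A (fun j => Q (g j)) := by
  intro ε hε
  obtain ⟨W, p, A', h1, h2, h3⟩ := h ε hε
  exact ⟨W, p, A', h1, h2, h3.comp g⟩

/-- polynomial images -/
theorem ALeaf.sum {A : S.L} {Q : ι → QS S} {Q' : κ → QS S} (h : ALeaf A Q)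
    (hQ' : ∀ j, ∃ F : MvPolynomial ι (QS S), F ∈ PK A ∧ Q' j = MvPolynomial.eval Q F) : ALeaf A Q' := by
  intro ε hε
  obtain ⟨W, p, A', h1, h2, h3⟩ := h ε hε
  refine ⟨W, p, A', h1, h2, h3.sum fun j => ?_⟩
  obtain ⟨F, hF, hFQ⟩ := hQ' j
  refine ⟨MvPolynomial.map p.qs F, PK_mono h1 (map_PK p hF), ?_⟩
  rw [hFQ, qs_eval]

/-- leaves of `(A, Q)` can be glued to any extension: only the joint law of `A` and of the digits of `Q` matters -/
theorem ALeaf.glue [Fintype ι] {A : S.L} {Q : ι → QS S} (hl : ∀ ε : ℝ, 0 < ε → ∃ (W : Sp) (p : Pj W S) (A' : W.L),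
      p.map A ≤ A' ∧ I A' (p.map (vd Q 1)) (p.map A) ≤ ε ∧ PLeaf A' (fun j => p.qs (Q j)))
    {T : Sp} (q : Pj T S) {ε : ℝ} (hε : 0 < ε) :
    ∃ (D : Sp) (p2 : Pj D T) (A' : D.L), p2.map (q.map A) ≤ A' ∧
      (∀ y : T.L, I A' (p2.map y) (p2.map (q.map A)) ≤ ε) ∧ PLeaf A' (fun j => p2.qs (q.qs (Q j))) ∧
      ∀ y : T.L, I A' (p2.map y) (p2.map (q.map (A ⊔ vd Q 1))) = 0 := by
  obtain ⟨W, p, A', h1, h2, h3⟩ := hl ε hε
  obtain ⟨D, p1, p2, g1, g2, g3⟩ := exists_glue p q Q (fun _ : Fin 1 => A)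
  have hA : p1.map (p.map A) = p2.map (q.map A) := g2 0
  have hs : (univ.sup fun _ : Fin 1 => A) = A := by simp
  have hQ : p1.map (p.map (vd Q 1)) = p2.map (q.map (vd Q 1)) := by
    rw [← p.qs_vd, ← p1.qs_vd, ← q.qs_vd, ← p2.qs_vd]
    congr 1
    funext i
    exact g1 i
  have key : ∀ y : T.L, I (p1.map A') (p2.map y) (p2.map (q.map (A ⊔ vd Q 1))) = 0 := by
    intro y
    have e1 := g3 A' y
    rw [hs, sup_comm (vd Q 1) A] at e1
    exact e1
  refine ⟨D, p2, p1.map A', ?_, fun y => ?_, ?_, key⟩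
  · rw [← hA]
    exact p1.map_mono h1
  · have e2 : I (p1.map A') (p2.map y) (p2.map (q.map A)) ≤
        I (p1.map A') (p2.map (q.map (vd Q 1)) ⊔ p2.map y) (p2.map (q.map A)) :=
      I_mono_right ((le_sup_right (a := p2.map (q.map (vd Q 1)))).trans le_sup_left)
    rw [I_chain_right] at e2
    have e3 : I (p1.map A') (p2.map y) (p2.map (q.map (vd Q 1)) ⊔ p2.map (q.map A)) = 0 := by
      have := key y
      rw [q.map_sup, p2.map_sup, sup_comm] at this
      exact this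
    have e4 : I (p1.map A') (p2.map (q.map (vd Q 1))) (p2.map (q.map A)) ≤ ε := by
      rw [← hQ, ← hA, p1.I_map]
      exact h2
    linarith
  · have e5 := h3.pull p1
    have e6 : (fun j => p1.qs (p.qs (Q j))) = fun j => p2.qs (q.qs (Q j)) := funext g1
    rwa [e6] at e5

/-- it is enough to control the information on `Q` itself -/
theorem ALeaf.mk' [Fintype ι] {A : S.L} {Q : ι → QS S} (hl : ∀ ε : ℝ, 0 < ε → ∃ (W : Sp) (p : Pj W S) (A' : W.L),
      p.map A ≤ A' ∧ I A' (p.map (vd Q 1)) (p.map A) ≤ ε ∧ PLeaf A' (fun j => p.qs (Q j))) : ALeaf A Q := by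
  intro ε hε
  obtain ⟨D, p2, A', h1, h2, h3, _⟩ := ALeaf.glue hl (Pj.id S) hε
  simp only [Pj.id_map, Pj.id_qs] at h1 h2 h3
  exact ⟨D, p2, A', h1, h2, h3⟩

theorem ALeaf.weak [Fintype ι] {A : S.L} {Q : ι → QS S} (h : ALeaf A Q) : ∀ ε : ℝ, 0 < ε →
    ∃ (W : Sp) (p : Pj W S) (A' : W.L), p.map A ≤ A' ∧ I A' (p.map (vd Q 1)) (p.map A) ≤ ε ∧
      PLeaf A' (fun j => p.qs (Q j)) := by
  intro ε hε
  obtain ⟨W, p, A', h1, h2, h3⟩ := h ε hε
  exact ⟨W, p, A', h1, h2 _, h3⟩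

/-- limits: `A` is a decreasing limit of leaves, which may live on extensions -/
theorem ALeaf.limit' [Fintype ι] {A : S.L} {Q : ι → QS S} (hl : ∀ ε : ℝ, 0 < ε → ∃ (T : Sp) (q : Pj T S) (B : T.L),
      q.map A ≤ B ∧ h B (q.map A) ≤ ε ∧ ALeaf B (fun j => q.qs (Q j))) : ALeaf A Q := by
  apply ALeaf.mk'
  intro ε hε
  obtain ⟨T, q, B, h1, h2, h3⟩ := hl (ε / 2) (by positivity)
  obtain ⟨W, p, A', g1, g2, g3⟩ := h3 (ε / 2) (by positivity)
  refine ⟨W, p.comp q, A', ?_, ?_, ?_⟩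
  · rw [Pj.comp_map]
    exact (p.map_mono h1).trans g1
  · rw [Pj.comp_map, Pj.comp_map]
    have e1 : I A' (p.map (q.map (vd Q 1))) (p.map (q.map A)) ≤
        I (p.map B ⊔ A') (p.map (q.map (vd Q 1))) (p.map (q.map A)) :=
      I_mono_left ((le_sup_right (a := p.map B)).trans le_sup_left)
    rw [I_chain] at e1
    have e2 : I (p.map B) (p.map (q.map (vd Q 1))) (p.map (q.map A)) ≤ ε / 2 := by
      rw [p.I_map]
      exact (I_le_h_left _ _ _).trans h2
    have e3 : I A' (p.map (q.map (vd Q 1))) (p.map B ⊔ p.map (q.map A)) ≤ ε / 2 := by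
      rw [sup_eq_left.mpr (p.map_mono h1)]
      exact g2 _
    linarith
  · have e4 : (fun j => (p.comp q).qs (Q j)) = fun j => p.qs (q.qs (Q j)) := funext fun j => Pj.comp_qs p q (Q j)
    rw [e4]
    exact g3

theorem ALeaf.limit [Fintype ι] {A : S.L} {Q : ι → QS S} (hl : ∀ ε : ℝ, 0 < ε → ∃ B : S.L, A ≤ B ∧ h B A ≤ ε ∧
    ALeaf B Q) : ALeaf A Q := by
  apply ALeaf.limit'
  intro ε hε
  obtain ⟨B, h1, h2, h3⟩ := hl ε hε
  refine ⟨S, Pj.id S, B, by rwa [Pj.id_map], by rwa [Pj.id_map], ?_⟩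
  have h7 : (fun j => (Pj.id S).qs (Q j)) = Q := funext fun j => Pj.id_qs (Q j)
  rw [h7]
  exact h3

/-- extensions -/
theorem ALeaf.pull [Fintype ι] {T : Sp} (q : Pj T S) {A : S.L} {Q : ι → QS S} (h : ALeaf A Q) :
    ALeaf (q.map A) (fun j => q.qs (Q j)) := by
  intro ε hε
  obtain ⟨D, p2, A', h1, h2, h3, _⟩ := ALeaf.glue h.weak q hε
  exact ⟨D, p2, A', h1, h2, h3⟩

/-- adding an information which is independent of the point -/
theorem ALeaf.add [Fintype ι] {A B : S.L} {Q : ι → QS S} (h : ALeaf A Q) (hi : I B (vd Q 1) A = 0) :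
    ALeaf (A ⊔ B) Q := by
  intro ε hε
  obtain ⟨W, p, A', h1, h2, n, Y, Φ, hY, hΦ, hQ⟩ := h ε hε
  obtain ⟨D, p1, p2, g1, g2, g3⟩ := exists_glue p (Pj.id S) Q (fun _ : Fin 1 => A)
  have hs : (univ.sup fun _ : Fin 1 => A) = A := by simp
  simp only [Pj.id_map, Pj.id_qs, hs] at g1 g2 g3
  have hA : p1.map (p.map A) = p2.map A := g2 0
  have hQ1 : p1.map (p.map (vd Q 1)) = p2.map (vd Q 1) := by
    rw [← p.qs_vd, ← p1.qs_vd, ← p2.qs_vd]
    congr 1
    funext i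
    exact g1 i
  have hAA : p2.map A ≤ p1.map A' := by rw [← hA]; exact p1.map_mono h1
  have i1 : ∀ x : W.L, I (p2.map B) (p1.map x) (p2.map A) = 0 := by
    intro x
    have e1 : I (p2.map B) (p2.map (vd Q 1) ⊔ p1.map x) (p2.map A) = 0 := by
      rw [I_chain_right, p2.I_map, hi, zero_add, I_comm, ← p2.map_sup]
      exact g3 x B
    exact I_zero_mono e1 le_sup_left ((le_sup_right (a := p2.map (vd Q 1))).trans le_sup_left)
  have i2 : ∀ y : S.L, I (p1.map A') (p2.map y) (p2.map A) ≤ ε := by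
    intro y
    have e2 : I (p1.map A') (p2.map y) (p2.map A) ≤ I (p1.map A') (p2.map (vd Q 1) ⊔ p2.map y) (p2.map A) :=
      I_mono_right ((le_sup_right (a := p2.map (vd Q 1))).trans le_sup_left)
    rw [I_chain_right, ← p2.map_sup, g3 A' y, add_zero] at e2
    have e4 : I (p1.map A') (p2.map (vd Q 1)) (p2.map A) ≤ ε := by
      rw [← hQ1, ← hA, p1.I_map]
      exact h2 _
    linarith
  refine ⟨D, p2, p1.map A' ⊔ p2.map B, ?_, fun y => ?_, n, fun i => p1.qs (Y i),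
    fun j => MvPolynomial.map p1.qs (Φ j), ?_, fun j => ?_, fun j => ?_⟩
  · rw [p2.map_sup]
    exact sup_le_sup_right hAA _
  · have e1 : I (p1.map A' ⊔ p2.map B) (p2.map y) (p2.map (A ⊔ B)) ≤ I (p1.map A') (p2.map y) (p2.map (A ⊔ B)) := by
      apply I_mono_left
      rw [p2.map_sup]
      exact sup_le le_sup_left (le_sup_right.trans le_sup_right)
    have e2 := i2 (B ⊔ y)
    rw [p2.map_sup, I_chain_right] at e2
    have e3 := I_nonneg (p1.map A') (p2.map B) (p2.map A)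
    rw [p2.map_sup, sup_comm (p2.map A)] at e1 ⊢
    linarith
  · have e1 := i1 (A' ⊔ vd Y 1)
    rw [p1.map_sup, I_chain_right] at e1
    have e2 := I_nonneg (p2.map B) (p1.map A') (p2.map A)
    have e3 := I_nonneg (p2.map B) (p1.map (vd Y 1)) (p1.map A' ⊔ p2.map A)
    have e4 : I (p2.map B) (p1.map (vd Y 1)) (p1.map A' ⊔ p2.map A) = 0 := by linarith
    rw [sup_eq_left.mpr hAA, I_zero_iff_h', p1.h_map] at e4
    unfold Rl at hY ⊢
    rw [p1.qs_vd, sup_comm, e4, hY]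
  · exact PK_mono le_sup_left (map_PK p1 (hΦ j))
  · have e5 : p.qs (Q j) = MvPolynomial.eval Y (Φ j) := hQ j
    beta_reduce
    rw [← g1 j, e5, qs_eval]

end

end Pool.Agent.Helper95.RIG
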