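import Pool.Agent.Helper95.RIG.St

/-! RIG: (Y) = STRONG for the fibres, from the structure theorem in dimension `N + 1` and slicing. -/

namespace Pool.Agent.Helper95.RIG

open Finset Filter Topology Pool.Agent.Helper69.RK Pool.Agent.Helper31.EC

noncomputable section

open Sp QS

variable {S : Sp} {ι κ : Type}

/-- closure properties of exact leaves pass to approximate leaves -/
theorem ALeaf.up [Fintype ι] {A B : S.L} {Q : ι → QS S} (h : ALeaf A Q) (hAB : A ≤ B)
    (hB : ∀ (W : Sp) (p : Pj W S) (A' : W.L), p.map A ≤ A' → PLeaf A' (fun j => p.qs (Q j)) →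
      ALeaf (A' ⊔ p.map B) (fun j => p.qs (Q j))) : ALeaf B Q := by
  apply ALeaf.mk'
  intro ε hε
  obtain ⟨W, p, A', h1, h2, h3⟩ := h (ε / 2) (by positivity)
  obtain ⟨W', q, A'', g1, g2, g3⟩ := hB W p A' h1 h3 (ε / 2) (by positivity)
  refine ⟨W', q.comp p, A'', ?_, ?_, ?_⟩
  · rw [Pj.comp_map]
    exact (q.map_mono (le_sup_right (a := A'))).trans g1
  · rw [Pj.comp_map, Pj.comp_map]
    set y := p.map (vd Q 1) with hy
    have e1 : I A'' (q.map y) (q.map (p.map B)) ≤ I (q.map A' ⊔ A'') (q.map y) (q.map (p.map B)) :=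
      I_mono_left ((le_sup_right (a := q.map A')).trans le_sup_left)
    rw [I_chain] at e1
    have e2 : I (q.map A') (q.map y) (q.map (p.map B)) ≤ ε / 2 := by
      rw [q.I_map]
      have e3 := h2 (B ⊔ vd Q 1)
      rw [p.map_sup, I_chain_right, sup_eq_left.mpr (p.map_mono hAB)] at e3
      have e4 := I_nonneg A' (p.map B) (p.map A)
      linarith
    have e5 : I A'' (q.map y) (q.map A' ⊔ q.map (p.map B)) ≤ ε / 2 := by
      rw [← q.map_sup]
      exact g2 _
    linarith
  · have e4 : (fun j => (q.comp p).qs (Q j)) = fun j => q.qs (p.qs (Q j)) := funext fun j => Pj.comp_qs q p (Q j)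
    rw [e4]
    exact g3

/-- slicing of approximate leaves -/
theorem ALeaf.slice (hS : ST_SLICE) {m : ℕ} {A : S.L} {Q : Fin m → QS S} (h : ALeaf A Q) (j : Fin m) :
    ALeaf (A ⊔ dg (Q j) 1) Q := by
  apply h.up le_sup_left
  intro W p A' h1 h2
  have h3 := hS W m A' (fun j => p.qs (Q j)) j h2
  have h4 : A' ⊔ p.map (A ⊔ dg (Q j) 1) = A' ⊔ dg (p.qs (Q j)) 1 := by
    rw [p.map_sup, p.qs_dg, ← sup_assoc, sup_eq_left.mpr h1]
  rw [h4]
  exact h3

/-- adding a known coordinate -/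
theorem ALeaf.cons {N : ℕ} {A : S.L} {R : Fin N → QS S} (h : ALeaf A R) {t : QS S} (ht : dg t 1 ≤ A) :
    ALeaf A (Fin.cons t R : Fin (N + 1) → QS S) := by
  apply h.sum
  intro j
  induction j using Fin.cases with
  | zero => exact ⟨MvPolynomial.C t, C_mem ht, by rw [MvPolynomial.eval_C, Fin.cons_zero]⟩
  | succ j => exact ⟨MvPolynomial.X j, X_mem A j, by rw [MvPolynomial.eval_X, Fin.cons_succ]⟩

namespace Cor

variable {d N : ℕ} {c : Cor S d N} {z : Fin N} {rho : ℝ}

theorem Ax.t_le (hc : c.Ax z rho) : dg (c.q 0) 1 ≤ c.P := (dg_le_vd c.q 1 0).trans hc.hq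

theorem Ax.box_le (hc : c.Ax z rho) : c.P ⊔ c.be 1 ≤ c.O :=
  sup_le hc.hP ((hc.dig 1 zero_le_one le_rfl).trans (sup_le hc.hP hc.hR))

theorem Ax.ind_i (hc : c.Ax z rho) (i : Fin c.r) : I (c.b i) c.O c.P = 0 :=
  I_zero_mono hc.ind ((le_sup (f := c.b) (mem_univ i)).trans le_sup_left) le_sup_left

/-- the chart of a curve -/
theorem Ax.chart (hc : c.Ax z rho) (i : Fin c.r) : LitChart (c.bV i) (c.f i) (c.xi i) c.tR := by
  obtain ⟨ht, hcur⟩ := hc.curve i
  choose k w hw using hcur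
  refine ⟨1, fun _ => c.q 0, Fin.cons (MvPolynomial.X 0) (fun j => ∑ a : Fin (k j + 1),
    MvPolynomial.monomial (Finsupp.single 0 (a : ℕ)) (c.f i (w j a))), ?_, ?_, ?_, ?_⟩
  · unfold Rl
    have h1 : vd (fun _ : Fin 1 => c.q 0) 1 = dg (c.q 0) 1 := by
      apply le_antisymm
      · rw [vd_le]; exact fun _ => le_rfl
      · exact dg_le_vd (fun _ : Fin 1 => c.q 0) 1 0
    rw [h1, ht]
    simp
  · intro j
    induction j using Fin.cases with
    | zero => rw [Fin.cons_zero]; exact X_mem _ 0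
    | succ j =>
      rw [Fin.cons_succ]
      apply Subring.sum_mem
      intro a _
      exact monomial_mem _ ((dg_le_vd (c.f i) 1 (w j a)).trans le_sup_right)
  · intro j
    induction j using Fin.cases with
    | zero =>
      rw [Fin.cons_zero, MvPolynomial.eval_X]
      rfl
    | succ j =>
      rw [Fin.cons_succ, map_sum]
      show c.R j = _
      rw [hw j]
      unfold pe
      apply Finset.sum_congr rfl
      intro a _
      rw [MvPolynomial.eval_monomial]
      simp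
  · intro W π π' _ hf j
    induction j using Fin.cases with
    | zero => rw [Fin.cons_zero, MvPolynomial.map_X, MvPolynomial.map_X]
    | succ j =>
      rw [Fin.cons_succ, map_sum, map_sum]
      apply Finset.sum_congr rfl
      intro a _
      rw [MvPolynomial.map_monomial, MvPolynomial.map_monomial, hf]

theorem Ax.pleaf (hc : c.Ax z rho) (i : Fin c.r) : PLeaf (c.xi i) c.tR := by
  obtain ⟨e, Y, Φ, h1, h2, h3, _⟩ := hc.chart i
  exact ⟨e, Y, Φ, h1, h2, h3⟩

/-- (Y) from a common leaf of the curve and of the vertical structure -/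
theorem fibY_of (hS : ST_SLICE) (hc : c.Ax z rho) {V : S.L} (i : Fin c.r) {K : S.L} (h1 : c.b i ≤ K)
    (h2 : K ≤ c.xi i) (h3 : K ≤ V ⊔ c.b i) (h4 : ALeaf K c.tR) (h5 : Agr (c.bV i) (c.f i) K) : c.FibY V i K := by
  refine ⟨h1, h2, h3, ?_, h5⟩
  have e1 := (h4.slice hS 0).comp (fun j : Fin N => j.succ)
  have e2 : (fun j : Fin N => c.tR j.succ) = c.R := funext fun j => Fin.cons_succ _ _ _
  have e3 : dg (c.tR 0) 1 = dg (c.q 0) 1 := rfl
  rw [e2, e3] at e1
  have e4 : I c.P (vd c.R 1) (K ⊔ dg (c.q 0) 1) = 0 := by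
    have e5 : I c.P (K ⊔ vd c.R 1) (c.b i ⊔ dg (c.q 0) 1) = 0 :=
      I_zero_mono (hc.far1 i) le_sup_left ((sup_le_sup_right h2 _).trans le_sup_left)
    have e6 := (I_decomp e5).2
    rwa [← sup_assoc, sup_eq_left.mpr h1] at e6
  have e7 := e1.add e4
  have e8 : K ⊔ dg (c.q 0) 1 ⊔ c.P = K ⊔ c.P := by
    rw [sup_assoc, sup_eq_right.mpr hc.t_le]
  rwa [e8] at e7

/-- vertical structures as types of the fibre system -/
theorem Ax.vert (hc : c.Ax z rho) {V : S.L} (hP : c.P ≤ V) (hO : V ≤ c.O) (hV : ALeaf V c.R) (i : Fin c.r) :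
    ALeaf (V ⊔ c.b i) c.tR := by
  have e1 : I (c.b i) (vd c.R 1) V = 0 := by
    have e2 := I_zero_mono (hc.ind_i i) (le_sup_left (a := c.b i))
      ((sup_le hO hc.hR).trans (le_sup_left (b := c.P)))
    have e3 := (I_decomp e2).2
    rwa [sup_eq_left.mpr hP] at e3
  exact (hV.add e1).cons ((hc.t_le.trans hP).trans le_sup_left)

/-- (Y) from the structure theorem in dimension `N + 1` -/
theorem fibY_of_STL (hS : ST_SLICE) (hSTL : STL (N + 1)) (hc : c.Ax z rho) {V : S.L} (hP : c.P ≤ V) (hO : V ≤ c.O)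
    (hV : ALeaf V c.R) (i : Fin c.r) : ∃ K, c.FibY V i K := by
  obtain ⟨K, hK, hag⟩ := hSTL S (c.al i) (c.bV i) (hc.bdd i) c.tR 2 ![c.xi i, V ⊔ c.b i]
    (by
      intro j
      fin_cases j
      · exact le_sup_left
      · exact le_sup_right)
    (by
      intro j
      fin_cases j
      · exact ALeaf.of_PLeaf (hc.pleaf i)
      · exact hc.vert hP hO hV i)
  exact ⟨K, fibY_of hS hc i hK.base (hK.le 0) (hK.le 1) hK.leaf (hag 0 _ (c.f i) rfl (hc.chart i))⟩

/-- THEOREM R from RIG (A), the structure theorem and slicing -/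
theorem thmR_of_STL (hS : ST_SLICE) (hSTL : STL (N + 1)) (hc : c.Ax z rho)
    (hA : ∀ V : S.L, c.P ≤ V → ALeaf V c.R → c.be 1 ≤ V) (i : Fin c.r) : c.ThmR i := by
  obtain ⟨K, hK⟩ := fibY_of_STL hS hSTL hc le_sup_left hc.box_le hc.boxleaf i
  exact thmR_of c hA i hK

end Cor

end

end Pool.Agent.Helper95.RIG
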