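import Pool.Agent.Helper95.RIG.St
import Pool.Agent.Helper57.TA.Dsc
import Pool.Agent.Helper13.AM.Zq

/-! RIG: exact leaves in the zoom into a box whose frame is known to the leaf. -/

set_option autoImplicit false

namespace Pool.Agent.Helper95.RIG

open Finset Filter Topology Pool.Agent.Helper69.RK Pool.Agent.Helper31.EC
open Pool.Agent.Helper57.TA (sc Rt Rl_iff_Rt mv_small mv_small1 exists_coeffs exists_div exists_div' eval_mem_ideal
  mem_of_sc_mul sc_mul_mem_iff)
open Pool.Agent.Helper13.AM (cQ cQ_dg cQ_vd cQ_eq)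

noncomputable section

open Sp QS

variable {S : Sp}

/-- digits of a quotient by a scale -/
theorem dg_div_le {u : ℝ} (hu : 0 ≤ u) (hu1 : u ≤ 1) {f X : QS S} (hf : f = sc S u * X) {r : ℝ} (hr : r ≤ 1) :
    dg X (r - u) ≤ dg f r := by
  have h0 : f ∈ Id S u := by
    have h1 := (sc_mul_mem_iff (S := S) hu hu1 (f := X)).mpr (by rw [sub_self]; exact mem_Id_nonpos le_rfl)
    rwa [← hf] at h1
  obtain ⟨g, hg, hg'⟩ := exists_div hu hu1 h0
  have h2 : X - g ∈ Id S (1 - u) := by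
    apply mem_of_sc_mul hu le_rfl
    rw [mul_sub, ← hf, ← hg, sub_self]
    exact (Id S 1).zero_mem
  rw [dg_eq_of_sub_mem h2 (by linarith) (by linarith)]
  exact hg' r hr

/-- polynomials known to an information, in the changed space -/
theorem cQ_PK {σ : Type} (Z : ∀ k, Setoid (S.F k).Ω) (e : ℝ) (he : 0 < e) (h1 : e ≤ 1) {A : S.L}
    {P : MvPolynomial σ (QS S)} (hP : P ∈ PK A) : MvPolynomial.map (cQ Z e he h1) P ∈ PK (chgL Z e he A) := by
  intro m
  rw [MvPolynomial.coeff_map]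
  show dg (cQ Z e he h1 _) 1 ≤ _
  rw [cQ_dg Z e he h1 _ le_rfl, mul_one]
  exact chgL_mono Z e he ((dg_mono _ h1).trans (hP m))

/-- real variables stay real in the changed space, if the new base is known -/
theorem cQ_Rl {n : ℕ} (V : S.Inf) (e : ℝ) (he : 0 < e) (h1 : e ≤ 1) {A : S.L} (hV : cl V ≤ A) {Y : Fin n → QS S}
    (hY : Rl Y A) : Rl (fun i => cQ V.1 e he h1 (Y i)) (chgL V.1 e he A) := by
  have h2 : Rt e Y A := (Rl_iff_Rt.mp hY).mono he.le h1
  unfold Rl
  rw [cQ_vd V.1 e he h1 Y le_rfl, mul_one, h_chgL_inf, sup_eq_left.mpr hV]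
  unfold Rt at h2
  rw [h2, mul_div_assoc, div_self he.ne', mul_one]

/-- a small polynomial leaf divided by scales -/
theorem PLeaf.zoom {N : ℕ} (V : S.Inf) {e : ℝ} (he : 0 < e) (h1 : e ≤ 1) {A : S.L} (hV : cl V ≤ A)
    {U X : Fin N → QS S} {la : Fin N → ℝ} (h0 : ∀ l, 0 ≤ la l) (hla : ∀ l, la l + e ≤ 1)
    (hX : ∀ l, U l = sc S (la l) * X l) (hU : PLeaf A U) :
    PLeaf (chgL V.1 e he A) (fun l => cQ V.1 e he h1 (X l)) := by
  obtain ⟨n, Y, Φ, hY, hΦ, hq⟩ := hU
  have hla1 : ∀ l, la l ≤ 1 := fun l => by linarith [hla l]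
  have hs : ∀ l, ∀ m, (Φ l).coeff m ∈ Id S (la l) := by
    intro l
    have h3 : MvPolynomial.eval Y (Φ l) ∈ Id S (la l) := by
      rw [← hq l, hX l, sc_mul_mem_iff (h0 l) (hla1 l), sub_self]
      exact mem_Id_nonpos le_rfl
    exact mv_small1 A Y one_pos le_rfl (Rl_iff_Rt.mp hY) 1 (Φ l) (hΦ l) (by
      rw [Nat.cast_one, one_mul]
      exact hla1 l) (hla1 l) h3
  choose Ψ hΨ using fun l => exists_coeffs (Φ l) (fun c g => c = sc S (la l) * g ∧ dg g 1 ≤ dg c 1)
    ⟨by rw [mul_zero], le_rfl⟩ (fun m => exists_div' (h0 l) (hla1 l) (hs l m))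
  have hΨK : ∀ l, Ψ l ∈ PK A := fun l m => (hΨ l m).2.trans (hΦ l m)
  have hΨe : ∀ l, Φ l = MvPolynomial.C (sc S (la l)) * Ψ l := by
    intro l
    ext m
    rw [MvPolynomial.coeff_C_mul]
    exact (hΨ l m).1
  refine ⟨n, fun i => cQ V.1 e he h1 (Y i), fun l => MvPolynomial.map (cQ V.1 e he h1) (Ψ l),
    cQ_Rl V e he h1 hV hY, fun l => cQ_PK V.1 e he h1 (hΨK l), fun l => ?_⟩
  beta_reduce
  have h4 : MvPolynomial.eval (fun i => cQ V.1 e he h1 (Y i)) (MvPolynomial.map (cQ V.1 e he h1) (Ψ l)) =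
      cQ V.1 e he h1 (MvPolynomial.eval Y (Ψ l)) := (eval_hom _ _ _).symm
  rw [h4, cQ_eq]
  have h5 : X l - MvPolynomial.eval Y (Ψ l) ∈ Id S (1 - la l) := by
    apply mem_of_sc_mul (h0 l) le_rfl
    rw [mul_sub, ← hX l, hq l, hΨe l, map_mul, MvPolynomial.eval_C, sub_self]
    exact (Id S 1).zero_mem
  exact Id_anti (by linarith [hla l]) h5

theorem eval_bind {ι κ : Type} (Γ : ι → MvPolynomial κ (QS S)) (Y : κ → QS S) (P : MvPolynomial ι (QS S)) :
    MvPolynomial.eval Y (MvPolynomial.bind₁ Γ P) = MvPolynomial.eval (fun i => MvPolynomial.eval Y (Γ i)) P := by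
  have h3 : (MvPolynomial.eval Y).comp (MvPolynomial.bind₁ Γ : MvPolynomial ι (QS S) →+* _) =
      MvPolynomial.eval (fun i => MvPolynomial.eval Y (Γ i)) := by
    apply MvPolynomial.ringHom_ext
    · intro r
      simp
    · intro i
      simp
  exact RingHom.congr_fun h3 P

theorem bind_PK {ι κ : Type} {A : S.L} {Γ : ι → MvPolynomial κ (QS S)} (hΓ : ∀ i, Γ i ∈ PK A)
    {P : MvPolynomial ι (QS S)} (hP : P ∈ PK A) : MvPolynomial.bind₁ Γ P ∈ PK A := by
  rw [MvPolynomial.bind₁, MvPolynomial.aeval_def, MvPolynomial.eval₂_eq]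
  apply Subring.sum_mem
  intro m _
  apply Subring.mul_mem
  · exact C_mem (hP m)
  · exact Subring.prod_mem _ fun i _ => Subring.pow_mem _ (hΓ i) _

/-- displacements of a triangular frame are a leaf, if the coordinates are: `R j = F j (x, γ) + γ j`, `x` and `F j` known
to the leaf, only with variables of lower weight -/
theorem PLeaf.disp {N : ℕ} {β : Type} {A : S.L} {x : β → QS S} {R γ : Fin N → QS S} (w : Fin N → ℝ)
    {F : Fin N → MvPolynomial (β ⊕ Fin N) (QS S)} (hx : ∀ i, dg (x i) 1 ≤ A)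
    (hF : ∀ j, F j ∈ PK A) (hlow : ∀ j m, (F j).coeff m ≠ 0 → ∀ l, m (Sum.inr l) ≠ 0 → w l < w j)
    (hR : ∀ j, R j = MvPolynomial.eval (Sum.elim x γ) (F j) + γ j) (h : PLeaf A R) : PLeaf A γ := by
  obtain ⟨n, Y, Φ, hY, hΦ, hq⟩ := h
  have key : ∀ m : ℕ, ∀ j, (univ.filter fun l => w l < w j).card < m →
      ∃ Γ : MvPolynomial (Fin n) (QS S), Γ ∈ PK A ∧ γ j = MvPolynomial.eval Y Γ := by
    intro m
    induction m with
    | zero => intro j hj; exact absurd hj (Nat.not_lt_zero _)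
    | succ m ih =>
      intro j hj
      have h1 : ∀ l, w l < w j → ∃ Γ : MvPolynomial (Fin n) (QS S), Γ ∈ PK A ∧ γ l = MvPolynomial.eval Y Γ := by
        intro l hl
        apply ih l
        refine lt_of_lt_of_le (card_lt_card ?_) (Nat.lt_succ_iff.mp hj)
        rw [Finset.ssubset_iff_of_subset (fun x hx => by
          rw [mem_filter] at hx ⊢
          exact ⟨hx.1, hx.2.trans hl⟩)]
        exact ⟨l, by simpa using hl, by simp⟩
      have h2 : ∀ l, ∃ Γ : MvPolynomial (Fin n) (QS S), Γ ∈ PK A ∧ (w l < w j → γ l = MvPolynomial.eval Y Γ) := by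
        intro l
        by_cases hl : w l < w j
        · obtain ⟨Γ, h3, h4⟩ := h1 l hl
          exact ⟨Γ, h3, fun _ => h4⟩
        · exact ⟨0, (PK A).zero_mem, fun h => absurd h hl⟩
      choose Γ hΓ hΓe using h2
      obtain ⟨Δ, hΔ⟩ : ∃ Δ : β ⊕ Fin N → MvPolynomial (Fin n) (QS S),
        Δ = Sum.elim (fun i => MvPolynomial.C (x i)) Γ := ⟨_, rfl⟩
      have hΔK : ∀ a, Δ a ∈ PK A := by
        intro a
        rw [hΔ]
        rcases a with a | a
        · exact C_mem (hx a)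
        · exact hΓ a
      refine ⟨Φ j - MvPolynomial.bind₁ Δ (F j), (PK A).sub_mem (hΦ j) (bind_PK hΔK (hF j)), ?_⟩
      have h3 : MvPolynomial.eval Y (MvPolynomial.bind₁ Δ (F j)) = MvPolynomial.eval (Sum.elim x γ) (F j) := by
        rw [eval_bind, MvPolynomial.eval_eq, MvPolynomial.eval_eq]
        apply Finset.sum_congr rfl
        intro m hm
        congr 1
        apply Finset.prod_congr rfl
        intro a ha
        rw [hΔ]
        rcases a with a | a
        · rw [Sum.elim_inl, Sum.elim_inl, MvPolynomial.eval_C]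
        · rw [Sum.elim_inr, Sum.elim_inr,
            hΓe a (hlow j m (MvPolynomial.mem_support_iff.mp hm) a (Finsupp.mem_support_iff.mp ha))]
      rw [map_sub, ← hq j, h3, hR j]
      ring
  choose Γ hΓ hΓe using fun j => key _ j (Nat.lt_succ_self _)
  exact ⟨n, Y, Γ, hY, hΓ, hΓe⟩

end

end Pool.Agent.Helper95.RIG
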